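import Pool.Agent.Q145.LS.Var

/-!
# Project LS: from the variance to the formula
-/

set_option autoImplicit false

namespace Pool.Agent.Q145.LS

open Finset Filter
open Pool.Agent.Q145.SZ

open Classical in
/-- the Hardy-Littlewood formula with precision `ε` holds for all but a proportion `ε` of the admissible constants -/
def HLS {K : ℕ} (X : ℕ) (a : Fin K → ℤ) (ε : ℝ) : Prop :=
  (((ATS X a).filter fun s => ¬ (|cntS X a s * (Real.log X * ∏ i, Real.log ((a i).natAbs * X)) - singS a s * X| ≤ ε * (singS a s * X))).card : ℝ) ≤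
    ε * (ATS X a).card

/-- the formula for all systems of length and slopes up to `Q` -/
def PS (X Q : ℕ) (ε : ℝ) : Prop := ∀ (K : ℕ) (a : Fin K → ℤ), K ≤ Q → (∀ i, a i ≠ 0 ∧ (a i).natAbs ≤ Q) → HLS X a ε

/-- conclusion of `S_TAILS` -/
def S_TAILS' : Prop := ∀ ε : ℝ, 0 < ε → ∃ (C : ℝ) (X₀ z₀ : ℕ), 0 < C ∧ ∀ (z X K : ℕ) (a : Fin K → ℤ), X₀ ≤ X → z₀ ≤ z → 8 * (K + 1) ≤ z →
  (∀ i, a i ≠ 0 ∧ (a i).natAbs ≤ z) → (z : ℝ) ≤ Real.log X → (PW z : ℝ) ^ 2 ≤ X → ∀ b : Fin K → ZMod (PW z),
  (((SbS X a b).filter fun s => ¬ (|singS a s - singPS a s z| ≤ ε * singPS a s z)).card : ℝ) ≤ C / Real.log z * (SbS X a b).card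

/-- the conclusion of `var_boundS` with a fixed `a₀` -/
def VBS (a₀ : ℕ) : Prop := ∀ η : ℝ, 0 < η → ∃ M : ℝ, 1 ≤ M ∧ ∀ (z X K : ℕ) (a : Fin K → ℤ), M ≤ Real.log (Real.log X) →
      64 * Real.log (Real.log X) ≤ z → 64 * z * Real.log (Real.log X) ≤ Real.log X → 16 * K ≤ z → (∀ i, a i ≠ 0 ∧ (a i).natAbs ≤ z) →
      IN (2 * (a₀ + 11)) z X →
      ∑ b ∈ AdW (um (PW z) a), (∑ s ∈ SbS X a b, (wcS X a s / MbS X (um (PW z) a) b - 1) ^ 2) / ((SbS X a b).card : ℝ) ≤ η * ((AdW (um (PW z) a)).card : ℝ)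

lemma prod_log_le {X K : ℕ} {a : Fin K → ℤ} {δ : ℝ} (hL : 0 < Real.log X) (hX : (0 : ℝ) < X) (ha : ∀ i, 1 ≤ (a i).natAbs)
    (hδ : 2 / Real.log X ≤ δ) :
    Real.log (3 * X) * ∏ i, Real.log (3 * ((a i).natAbs * X)) ≤ (Real.log X * ∏ i, Real.log ((a i).natAbs * X)) * (1 + δ) ^ (K + 1) := by
  have key : ∀ g : ℝ, 1 ≤ g → 0 ≤ Real.log (3 * (g * X)) ∧ Real.log (3 * (g * X)) ≤ Real.log (g * X) * (1 + δ) ∧ 0 ≤ Real.log (g * X) := by
    intro g hg
    have hg0 : 0 < g := by linarith
    have h1 : Real.log X ≤ Real.log (g * X) := Real.log_le_log hX (by nlinarith)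
    have h3 : Real.log (3 * (g * X)) = Real.log 3 + Real.log (g * X) := Real.log_mul (by norm_num) (by positivity)
    have h4 : Real.log 3 ≤ 2 := by
      have := Real.log_le_sub_one_of_pos (by norm_num : (0 : ℝ) < 3)
      linarith
    have h5 : 0 ≤ Real.log 3 := Real.log_nonneg (by norm_num)
    refine ⟨by linarith, ?_, by linarith⟩
    rw [h3]
    have h6 : 2 ≤ δ * Real.log X := by rwa [div_le_iff₀ hL] at hδ
    have h7 : 0 ≤ δ := by
      refine le_trans ?_ hδ
      positivity
    nlinarith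
  have k1 := key 1 le_rfl
  rw [one_mul] at k1
  have hcast : ∀ i, (1 : ℝ) ≤ ((a i).natAbs : ℝ) := fun i => by exact_mod_cast ha i
  have hP : ∏ i, Real.log (3 * ((a i).natAbs * X)) ≤ ∏ i : Fin K, (Real.log ((a i).natAbs * X) * (1 + δ)) :=
    prod_le_prod (fun i _ => (key _ (hcast i)).1) fun i _ => (key _ (hcast i)).2.1
  rw [prod_mul_distrib, prod_const, card_univ, Fintype.card_fin] at hP
  have hP0 : 0 ≤ ∏ i, Real.log (3 * ((a i).natAbs * X)) := prod_nonneg fun i _ => (key _ (hcast i)).1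
  calc Real.log (3 * X) * ∏ i, Real.log (3 * ((a i).natAbs * X))
      ≤ (Real.log X * (1 + δ)) * ((∏ i : Fin K, Real.log ((a i).natAbs * X)) * (1 + δ) ^ K) :=
        mul_le_mul k1.2.1 hP hP0 (k1.1.trans k1.2.1)
    _ = _ := by ring

open Classical in
lemma hls_bound {a₀ : ℕ} (vb : VBS a₀) (mbs : S_MBSS) (tr : S_TRANSS) (tail : S_TAILS') (wcb : S_WCB) (pb : S_PWB) :
    ∀ ε : ℝ, 0 < ε → ∃ M : ℝ, 1 ≤ M ∧ ∀ (z X Q : ℕ), M ≤ Real.log (Real.log X) →
      64 * Real.log (Real.log X) ≤ z → 64 * z * Real.log (Real.log X) ≤ Real.log X → 16 * Q ≤ z →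
      IN (2 * (a₀ + 11)) z X → PS X Q ε := by
  intro ε hε
  set e : ℝ := min ε 1 / 16 with he
  have hε1 : min ε 1 ≤ 1 := min_le_right _ _
  have hεε : min ε 1 ≤ ε := min_le_left _ _
  have hε0 : 0 < min ε 1 := by positivity
  have he0 : 0 < e := by positivity
  obtain ⟨M₁, hM₁, hvb⟩ := vb (e ^ 2 * (ε / 8)) (by positivity)
  obtain ⟨Ct, X₀, z₀, hCt, htail⟩ := tail e he0
  set M : ℝ := 64 + M₁ + X₀ + z₀ + Real.exp (8 * Ct / ε) + 1 / e + 3 with hM
  have q1 := Real.exp_pos (8 * Ct / ε)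
  have q2 : (0 : ℝ) ≤ X₀ := by positivity
  have q3 : (0 : ℝ) ≤ z₀ := by positivity
  have q4 : 0 < 1 / e := by positivity
  have hM1 : 1 ≤ M := by linarith
  have hM64 : 64 ≤ M := by linarith
  refine ⟨M, hM1, ?_⟩
  intro z X Q hX hz hzL hQ hIN K a hKQ haQ
  have hK : 16 * K ≤ z := by omega
  have ha : ∀ i, a i ≠ 0 ∧ (a i).natAbs ≤ z := fun i => ⟨(haQ i).1, by have := (haQ i).2; omega⟩
  have hv := hvb z X K a (by linarith) hz hzL hK ha hIN
  obtain ⟨hL0, hLM, hzM, hzL', hzl, hXe, hLe, hl1, hlL⟩ := elem (C := 64) le_rfl hM1 hX hz hzL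
  have hM0 : 0 < M := by linarith
  have hz0 : (0 : ℝ) < z := by linarith
  have hz64 : 64 ≤ z := by
    have : (64 : ℝ) ≤ z := by linarith
    exact_mod_cast this
  have hzz : z₀ ≤ z := by
    have : (z₀ : ℝ) ≤ z := by linarith
    exact_mod_cast this
  have hXL : Real.log X ≤ X := by
    have := Real.add_one_le_exp (Real.log X)
    rw [← hXe] at this; linarith
  have hXs : X₀ ≤ X := by
    have : (X₀ : ℝ) ≤ X := by linarith
    exact_mod_cast this
  have hX3 : 3 ≤ X := by
    have : (3 : ℝ) ≤ X := by linarith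
    exact_mod_cast this
  have hX0 : (0 : ℝ) < X := by linarith
  have hWe : (PW z : ℝ) ≤ Real.exp (2 * z) := PW_le pb z
  have hlogz : 8 * Ct / ε ≤ Real.log z := by
    rw [Real.le_log_iff_exp_le hz0]; linarith
  have hlz0 : 0 < Real.log z := lt_of_lt_of_le (by positivity) hlogz
  have hδ : Ct / Real.log z ≤ ε / 8 := by
    rw [div_le_iff₀ hlz0]
    rw [div_le_iff₀ hε] at hlogz
    linarith
  have hW2 : (PW z : ℝ) ^ 2 ≤ X := by
    calc (PW z : ℝ) ^ 2 ≤ (Real.exp (2 * z)) ^ 2 := by gcongr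
      _ = Real.exp (4 * z) := by rw [← Real.exp_nat_mul]; ring_nf
      _ ≤ Real.exp (Real.log X) := Real.exp_le_exp.2 (by linarith)
      _ = X := hXe.symm
  have hKz : (16 : ℝ) * K ≤ z := by exact_mod_cast hK
  have h8 : 8 * (K + 1) * PW z ≤ X := by
    have : (8 * ((K : ℝ) + 1)) * PW z ≤ X := by
      calc (8 * ((K : ℝ) + 1)) * PW z ≤ Real.exp z * Real.exp (2 * z) := by
            gcongr
            have : (z : ℝ) + 1 ≤ Real.exp z := Real.add_one_le_exp _
            have h2 : (z : ℝ) / 2 + 1 ≤ Real.exp (z / 2) := Real.add_one_le_exp _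
            have h3 : Real.exp z = Real.exp (z / 2) * Real.exp (z / 2) := by rw [← Real.exp_add]; ring_nf
            rw [h3]
            nlinarith
        _ = Real.exp (3 * z) := by rw [← Real.exp_add]; ring_nf
        _ ≤ Real.exp (Real.log X) := Real.exp_le_exp.2 (by linarith)
        _ = X := hXe.symm
    exact_mod_cast this
  have hai : ∀ i, 1 ≤ (a i).natAbs := fun i => Int.natAbs_pos.2 (ha i).1
  have hpow : Real.log (3 * X) * ∏ i, Real.log (3 * ((a i).natAbs * X)) ≤ (Real.log X * ∏ i, Real.log ((a i).natAbs * X)) * (1 + e) := by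
    have h5 : ((K : ℝ) + 1) * (2 / Real.log X) ≤ 1 / (16 * M) := by
      have h6 : 16 * M * (K + 1) ≤ Real.log X / 2 := by
        have : 16 * M * ((K : ℝ) + 1) ≤ 16 * M * (z / 8) := by
          apply mul_le_mul_of_nonneg_left _ (by positivity)
          have : (64 : ℝ) ≤ z := by exact_mod_cast hz64
          linarith
        have h7 : 64 * ((z : ℝ) * M) ≤ Real.log X := by
          have : (z : ℝ) * M ≤ z * Real.log (Real.log X) := by gcongr
          linarith
        nlinarith
      rw [← mul_div_assoc, div_le_div_iff₀ hL0 (by positivity)]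
      nlinarith
    have h6 : 1 / (16 * M) ≤ e / 2 := by
      rw [div_le_div_iff₀ (by positivity) (by norm_num)]
      have h7 : 1 / e ≤ M := by linarith
      rw [div_le_iff₀ he0] at h7
      nlinarith
    have he1 : e ≤ 1 := by rw [he]; linarith
    refine (prod_log_le hL0 hX0 hai le_rfl).trans ?_
    have h7 : 0 ≤ Real.log X * ∏ i, Real.log ((a i).natAbs * X) := by
      apply mul_nonneg hL0.le
      apply prod_nonneg
      intro i _
      apply Real.log_nonneg
      have : (1 : ℝ) ≤ (a i).natAbs := by exact_mod_cast hai i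
      nlinarith
    apply mul_le_mul_of_nonneg_left _ h7
    have h9 : ((K + 1 : ℕ) : ℝ) * (2 / Real.log X) ≤ 1 / (16 * M) := by push_cast; exact h5
    refine (one_add_pow_le (K := K + 1) (by positivity) (h9.trans (by linarith))).trans ?_
    linarith
  -- apply TRANS
  obtain ⟨E, hE⟩ : ∃ E : (Fin K → ℕ) → Prop, ∀ s, E s ↔ ¬ (|cntS X a s * (Real.log X * ∏ i, Real.log ((a i).natAbs * X)) - singS a s * X| ≤ ε * (singS a s * X)) :=
    ⟨_, fun _ => Iff.rfl⟩
  have hfin : ∑ b ∈ AdW (um (PW z) a), (((SbS X a b).filter fun s => E s).card : ℝ) /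
      (SbS X a b).card ≤ (ε / 4) * (AdW (um (PW z) a)).card := by
    have hb : ∀ b ∈ AdW (um (PW z) a), (((SbS X a b).filter fun s => E s).card : ℝ) /
        (SbS X a b).card ≤ (e ^ 2)⁻¹ * ((∑ s ∈ SbS X a b, (wcS X a s / MbS X (um (PW z) a) b - 1) ^ 2) / ((SbS X a b).card : ℝ)) + ε / 8 := by
      intro b hb
      rcases Nat.eq_zero_or_pos (SbS X a b).card with h0 | h0
      · rw [h0]; simp; positivity
      have h0' : (0 : ℝ) < (SbS X a b).card := by exact_mod_cast h0
      have hsub : (SbS X a b).filter (fun s => E s) ⊆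
          (SbS X a b).filter (fun s => e < |wcS X a s / MbS X (um (PW z) a) b - 1|) ∪ (SbS X a b).filter (fun s => ¬ (|singS a s - singPS a s z| ≤ e * singPS a s z)) := by
        intro s hs
        rw [mem_filter] at hs
        obtain ⟨hs1, hs2⟩ := hs
        rw [hE] at hs2
        rw [mem_union, mem_filter, mem_filter]
        by_contra hcon
        push Not at hcon
        obtain ⟨c1, c2⟩ := hcon
        have c1 := c1 hs1
        have c2 := c2 hs1
        apply hs2
        have hsb : (fun i => ((s i : ℕ) : ZMod (PW z))) = b := by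
          funext i
          have := Fintype.mem_piFinset.1 hs1 i
          unfold bcl at this
          exact (mem_filter.1 this).2
        have hsX : ∀ i, s i ∈ bx X (a i) := fun i => by
          have := Fintype.mem_piFinset.1 hs1 i
          unfold bcl at this
          exact (mem_filter.1 this).1
        have hMb := (mbs z X K a s).1
        rw [hsb] at hMb
        have hMb0 : 0 < MbS X (um (PW z) a) b := by
          unfold AdW at hb
          rw [mem_filter] at hb
          have : (0 : ℝ) < (GS (um (PW z) a) b).card := by exact_mod_cast card_pos.2 hb.2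
          have hv := vv_pos z
          have hW : (0 : ℝ) < PW z := by exact_mod_cast PW_pos z
          unfold MbS
          exact mul_pos (div_pos (mul_pos hX0 this) hW) (pow_pos hv (K + 1))
        have hbd := wcb X K a s hX3 (fun i => (ha i).1) hsX
        have e1 : |wcS X a s - MbS X (um (PW z) a) b| ≤ e * MbS X (um (PW z) a) b := by
          have : wcS X a s - MbS X (um (PW z) a) b = (wcS X a s / MbS X (um (PW z) a) b - 1) * MbS X (um (PW z) a) b := by field_simp
          rw [this, abs_mul, abs_of_pos hMb0]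
          gcongr
        have e2 : |singS a s * X - MbS X (um (PW z) a) b| ≤ e * MbS X (um (PW z) a) b := by
          rw [hMb]
          have : singS a s * X - X * singPS a s z = (singS a s - singPS a s z) * X := by ring
          rw [this, abs_mul, abs_of_pos hX0]
          calc _ ≤ e * singPS a s z * X := by gcongr
            _ = _ := by ring
        apply final_num (w := wcS X a s) (e := e) (S := MbS X (um (PW z) a) b) he0 (by rw [he]; linarith) (by rw [he]; linarith) hMb0 e1 e2 hbd.1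
        calc wcS X a s ≤ cntS X a s * (Real.log (3 * X) * ∏ i, Real.log (3 * ((a i).natAbs * X))) := hbd.2
          _ ≤ cntS X a s * ((Real.log X * ∏ i, Real.log ((a i).natAbs * X)) * (1 + e)) := by gcongr
          _ = _ := by ring
      have hc1 : (((SbS X a b).filter fun s => e < |wcS X a s / MbS X (um (PW z) a) b - 1|).card : ℝ) ≤ (e ^ 2)⁻¹ * ∑ s ∈ SbS X a b, (wcS X a s / MbS X (um (PW z) a) b - 1) ^ 2 := by
        rw [card_eq_sum_ones, Nat.cast_sum, mul_sum]
        push_cast
        refine le_trans ?_ (sum_le_sum_of_subset_of_nonneg (filter_subset (fun s => e < |wcS X a s / MbS X (um (PW z) a) b - 1|) (SbS X a b)) (fun s _ _ => by positivity))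
        apply sum_le_sum
        intro s hs
        rw [mem_filter] at hs
        have h3 : e ^ 2 ≤ (wcS X a s / MbS X (um (PW z) a) b - 1) ^ 2 := by
          rw [← sq_abs (wcS X a s / MbS X (um (PW z) a) b - 1)]
          have := hs.2
          gcongr
        rw [inv_mul_eq_div, le_div_iff₀ (by positivity)]
        linarith
      have hc2 := htail z X K a hXs hzz (by omega) ha (by linarith) hW2 b
      have hc3 : (((SbS X a b).filter fun s => E s).card : ℝ) ≤
          (e ^ 2)⁻¹ * ∑ s ∈ SbS X a b, (wcS X a s / MbS X (um (PW z) a) b - 1) ^ 2 + ε / 8 * (SbS X a b).card := by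
        have h3 := card_le_card hsub
        have h4 := h3.trans (card_union_le _ _)
        have h5 : (((SbS X a b).filter fun s => E s).card : ℝ) ≤
          (((SbS X a b).filter fun s => e < |wcS X a s / MbS X (um (PW z) a) b - 1|).card : ℝ) + (((SbS X a b).filter (fun s => ¬ (|singS a s - singPS a s z| ≤ e * singPS a s z))).card : ℝ) := by
          exact_mod_cast h4
        have h6 : Ct / Real.log z * ((SbS X a b).card : ℝ) ≤ ε / 8 * (SbS X a b).card := mul_le_mul_of_nonneg_right hδ (Nat.cast_nonneg _)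
        linarith
      rw [div_le_iff₀ h0']
      refine hc3.trans (le_of_eq ?_)
      rw [add_mul, mul_assoc (e ^ 2)⁻¹, div_mul_cancel₀ _ h0'.ne']
    have hA0 : (0 : ℝ) ≤ ((AdW (um (PW z) a)).card : ℝ) := Nat.cast_nonneg _
    have he2 : (0 : ℝ) ≤ (e ^ 2)⁻¹ := by positivity
    have hv2 := mul_le_mul_of_nonneg_left hv he2
    calc _ ≤ ∑ b ∈ AdW (um (PW z) a), ((e ^ 2)⁻¹ * ((∑ s ∈ SbS X a b, (wcS X a s / MbS X (um (PW z) a) b - 1) ^ 2) / ((SbS X a b).card : ℝ)) + ε / 8) := sum_le_sum hb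
      _ = (e ^ 2)⁻¹ * ∑ b ∈ AdW (um (PW z) a), ((∑ s ∈ SbS X a b, (wcS X a s / MbS X (um (PW z) a) b - 1) ^ 2) / ((SbS X a b).card : ℝ)) + ε / 8 * (AdW (um (PW z) a)).card := by
        rw [sum_add_distrib, ← mul_sum, sum_const, nsmul_eq_mul]; ring
      _ ≤ (e ^ 2)⁻¹ * (e ^ 2 * (ε / 8) * ((AdW (um (PW z) a)).card : ℝ)) + ε / 8 * (AdW (um (PW z) a)).card := add_le_add hv2 le_rfl
      _ = _ := by
        have : (e ^ 2)⁻¹ * (e ^ 2 * (ε / 8) * ((AdW (um (PW z) a)).card : ℝ)) = ε / 8 * ((AdW (um (PW z) a)).card : ℝ) := by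
          rw [← mul_assoc, ← mul_assoc, inv_mul_cancel₀ (by positivity), one_mul]
        rw [this]; ring
  have ht := tr mbs z X K a E (ε / 4) (by omega) ha h8 hfin
  have hAT : (0 : ℝ) ≤ ((ATS X a).card : ℝ) := Nat.cast_nonneg _
  have ht2 : (((ATS X a).filter fun s => E s).card : ℝ) ≤ ε * ((ATS X a).card : ℝ) := by
    refine ht.trans ?_
    have := mul_nonneg hε.le hAT
    linarith
  unfold HLS
  have hfe : (ATS X a).filter (fun s => ¬ (|cntS X a s * (Real.log X * ∏ i, Real.log ((a i).natAbs * X)) - singS a s * X| ≤ ε * (singS a s * X))) = (ATS X a).filter fun s => E s :=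
    filter_congr fun s _ => (hE s).symm
  rw [hfe]
  exact ht2

end Pool.Agent.Q145.LS
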