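import Pool.Agent.Q145.LS.Stm
import Pool.Agent.Q111.SZ.LOC

set_option autoImplicit false

/-!
# Project LS, job LOCS: the local inequality for forms with slopes
-/

namespace Pool.Agent.Q145.LS

open Finset
open Pool.Agent.Q145.SZ

theorem mem_GS {W : ℕ} [NeZero W] {K : ℕ} (u b : Fin K → ZMod W) (x : ZMod W) :
    x ∈ GS u b ↔ IsUnit x ∧ ∀ i, IsUnit (u i * x + b i) := by
  unfold GS
  simp

theorem mem_GS_cons {W : ℕ} [NeZero W] {K : ℕ} (u b : Fin K → ZMod W) (v β x : ZMod W) :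
    x ∈ GS (Fin.cons v u : Fin (K + 1) → ZMod W) (Fin.cons β b : Fin (K + 1) → ZMod W) ↔ x ∈ GS u b ∧ IsUnit (v * x + β) := by
  rw [mem_GS, mem_GS, Fin.forall_fin_succ]
  simp only [Fin.cons_zero, Fin.cons_succ]
  tauto

theorem mem_Gs_cons {W : ℕ} [NeZero W] {K : ℕ} (b : Fin K → ZMod W) (β x : ZMod W) :
    x ∈ Gs (Fin.cons β b : Fin (K + 1) → ZMod W) ↔ x ∈ Gs b ∧ IsUnit (x + β) := by
  unfold Gs
  simp only [mem_filter, mem_univ, true_and, Fin.forall_fin_succ, Fin.cons_zero, Fin.cons_succ]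
  tauto

theorem mem_Us {W : ℕ} [NeZero W] (n m β : ZMod W) : β ∈ Us n m ↔ IsUnit (n + β) ∧ IsUnit (m + β) := by
  unfold Us
  simp

/-- every set of classes modulo a prime is a set `Gs` -/
theorem exists_Gs {p : ℕ} [Fact p.Prime] (S : Finset (ZMod p)) : ∃ (k : ℕ) (c : Fin k → ZMod p), Gs c = S := by
  classical
  refine ⟨(univ \ S).card, fun j => -(((univ \ S).equivFin.symm j : {x // x ∈ univ \ S}) : ZMod p), ?_⟩
  ext x
  unfold Gs
  simp only [mem_filter, mem_univ, true_and, isUnit_iff_ne_zero]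
  constructor
  · intro h
    by_contra hx
    have hx' : x ∈ univ \ S := by simp [hx]
    have := h ((univ \ S).equivFin ⟨x, hx'⟩)
    rw [Equiv.symm_apply_apply] at this
    simp at this
  · intro hx j h
    have h1 := ((univ \ S).equivFin.symm j).2
    rw [mem_sdiff] at h1
    apply h1.2
    have : x = (((univ \ S).equivFin.symm j : {x // x ∈ univ \ S}) : ZMod p) := by
      rw [← sub_eq_add_neg, sub_eq_zero] at h
      exact h
    rw [← this]
    exact hx

theorem t_LOCS : S_LOCS := by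
  intro p _ k u c v n m hn hm
  by_cases hv : v = 0
  · subst hv
    have h1 : ∀ β ∈ Us (0 * n) (0 * m), GS (Fin.cons 0 u : Fin (k + 1) → ZMod p) (Fin.cons β c) = GS u c := by
      intro β hβ
      rw [mem_Us] at hβ
      ext x
      rw [mem_GS_cons]
      have : IsUnit (0 * x + β) := by simpa using hβ.1
      exact ⟨fun h => h.1, fun h => ⟨h, this⟩⟩
    have e4 : ∑ β ∈ Us (0 * n) (0 * m), (((GS (Fin.cons 0 u : Fin (k + 1) → ZMod p) (Fin.cons β c)).card : ℝ) ^ 4)⁻¹ =
        (Us (0 * n) (0 * m)).card * (((GS u c).card : ℝ) ^ 4)⁻¹ := by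
      rw [← nsmul_eq_mul, ← sum_const]
      exact sum_congr rfl fun β hβ => by rw [h1 β hβ]
    have e2 : ∑ β ∈ Us (0 * n) (0 * m), (((GS (Fin.cons 0 u : Fin (k + 1) → ZMod p) (Fin.cons β c)).card : ℝ) ^ 2)⁻¹ =
        (Us (0 * n) (0 * m)).card * (((GS u c).card : ℝ) ^ 2)⁻¹ := by
      rw [← nsmul_eq_mul, ← sum_const]
      exact sum_congr rfl fun β hβ => by rw [h1 β hβ]
    rw [e4, e2]
    have h3 : (0 : ℝ) ≤ 18 / (p : ℝ) := by positivity
    have e : (((Us (0 * n) (0 * m)).card : ℝ) * (((GS u c).card : ℝ) ^ 2)⁻¹) ^ 2 =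
        ((Us (0 * n) (0 * m)).card : ℝ) * (((Us (0 * n) (0 * m)).card : ℝ) * (((GS u c).card : ℝ) ^ 4)⁻¹) := by
      rw [mul_pow, ← inv_pow, ← inv_pow]
      ring
    rw [e]
    have h4 : 0 ≤ ((Us (0 * n) (0 * m)).card : ℝ) * (((Us (0 * n) (0 * m)).card : ℝ) * (((GS u c).card : ℝ) ^ 4)⁻¹) := by positivity
    nlinarith
  · obtain ⟨k', c', hc'⟩ := exists_Gs (GS u c)
    have hvu : IsUnit v := isUnit_iff_ne_zero.2 hv
    have key := Pool.Agent.Q111.SZ.t_LOC p k' c' n m (hc' ▸ hn) (hc' ▸ hm)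
    have hU : Us (v * n) (v * m) = (Us n m).map ⟨fun β => v * β, mul_right_injective₀ hv⟩ := by
      ext β
      rw [mem_map]
      simp only [Function.Embedding.coeFn_mk]
      constructor
      · intro h
        rw [mem_Us] at h
        refine ⟨v⁻¹ * β, ?_, by rw [mul_inv_cancel_left₀ hv]⟩
        rw [mem_Us]
        have e1 : v * n + β = v * (n + v⁻¹ * β) := by rw [mul_add, mul_inv_cancel_left₀ hv]
        have e2 : v * m + β = v * (m + v⁻¹ * β) := by rw [mul_add, mul_inv_cancel_left₀ hv]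
        rw [e1, e2] at h
        exact ⟨isUnit_of_mul_isUnit_right h.1, isUnit_of_mul_isUnit_right h.2⟩
      · rintro ⟨β', hβ', rfl⟩
        rw [mem_Us] at hβ' ⊢
        rw [← mul_add, ← mul_add]
        exact ⟨hvu.mul hβ'.1, hvu.mul hβ'.2⟩
    have hG : ∀ β, GS (Fin.cons v u : Fin (k + 1) → ZMod p) (Fin.cons (v * β) c) = Gs (Fin.cons β c' : Fin (k' + 1) → ZMod p) := by
      intro β
      ext x
      rw [mem_GS_cons, mem_Gs_cons, hc', ← mul_add]
      exact and_congr Iff.rfl ⟨fun h => isUnit_of_mul_isUnit_right h, fun h => hvu.mul h⟩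
    rw [hU, card_map, sum_map, sum_map]
    simp only [Function.Embedding.coeFn_mk, hG]
    exact key

end Pool.Agent.Q145.LS
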