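import Pool.Agent.Q145.LS.Stm

/-!
# Project LS (helper145), MBSS: the mean value and the singular series
-/

set_option autoImplicit false

namespace Pool.Agent.Q150.LSB

open Finset Filter Pool.Agent.Q145.SZ Pool.Agent.Q145.LS

/-- the number of units `x` with all `a_i x + s_i` units -/
noncomputable def cG {K : ℕ} (a : Fin K → ℤ) (s : Fin K → ℕ) (M : ℕ) : ℕ :=
  Nat.card {x : ZMod M // IsUnit x ∧ ∀ i, IsUnit ((a i : ZMod M) * x + (s i : ZMod M))}

lemma card_GS {K : ℕ} (a : Fin K → ℤ) (s : Fin K → ℕ) (M : ℕ) [NeZero M] :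
    (GS (um M a) (fun i => (s i : ZMod M))).card = cG a s M := by
  classical
  unfold cG
  rw [Nat.subtype_card]
  intro x
  unfold GS um
  simp

lemma cG_mul {K : ℕ} (a : Fin K → ℤ) (s : Fin K → ℕ) {M N : ℕ} (h : M.Coprime N) :
    cG a s (M * N) = cG a s M * cG a s N := by
  unfold cG
  rw [← Nat.card_prod]
  refine Nat.card_congr ?_
  refine (Equiv.subtypeEquiv (q := fun c : ZMod M × ZMod N =>
    (IsUnit c.1 ∧ ∀ i, IsUnit ((a i : ZMod M) * c.1 + (s i : ZMod M))) ∧
      IsUnit c.2 ∧ ∀ i, IsUnit ((a i : ZMod N) * c.2 + (s i : ZMod N)))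
    (ZMod.chineseRemainder h).toEquiv ?_).trans
      (Equiv.subtypeProdEquivProd
        (p := fun x : ZMod M => IsUnit x ∧ ∀ i, IsUnit ((a i : ZMod M) * x + (s i : ZMod M)))
        (q := fun x : ZMod N => IsUnit x ∧ ∀ i, IsUnit ((a i : ZMod N) * x + (s i : ZMod N))))
  intro x
  have h0 : IsUnit x ↔ IsUnit ((ZMod.chineseRemainder h) x).1 ∧
      IsUnit ((ZMod.chineseRemainder h) x).2 := by
    rw [← Prod.isUnit_iff]
    exact (MulEquiv.isUnit_map (ZMod.chineseRemainder h)).symm
  have h1 : ∀ i, IsUnit ((a i : ZMod (M * N)) * x + (s i : ZMod (M * N))) ↔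
      IsUnit ((a i : ZMod M) * ((ZMod.chineseRemainder h) x).1 + (s i : ZMod M)) ∧
      IsUnit ((a i : ZMod N) * ((ZMod.chineseRemainder h) x).2 + (s i : ZMod N)) := by
    intro i
    have h2 : IsUnit ((a i : ZMod (M * N)) * x + (s i : ZMod (M * N))) ↔
        IsUnit ((ZMod.chineseRemainder h) ((a i : ZMod (M * N)) * x + (s i : ZMod (M * N)))) :=
      (MulEquiv.isUnit_map (ZMod.chineseRemainder h)).symm
    rw [h2, map_add, map_mul, map_natCast, map_intCast, Prod.isUnit_iff]
    rfl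
  rw [h0, forall_congr' h1, forall_and]
  constructor
  · rintro ⟨⟨p1, p2⟩, p3, p4⟩
    exact ⟨⟨p1, p3⟩, p2, p4⟩
  · rintro ⟨⟨p1, p3⟩, p2, p4⟩
    exact ⟨⟨p1, p2⟩, p3, p4⟩

lemma cG_one {K : ℕ} (a : Fin K → ℤ) (s : Fin K → ℕ) : cG a s 1 = 1 := by
  unfold cG
  have : Unique {x : ZMod 1 // IsUnit x ∧ ∀ i, IsUnit ((a i : ZMod 1) * x + (s i : ZMod 1))} :=
    { default := ⟨0, by
        have : (0 : ZMod 1) = 1 := Subsingleton.elim _ _
        rw [this]
        exact isUnit_one, fun i => by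
        have : (a i : ZMod 1) * (0 : ZMod 1) + (s i : ZMod 1) = 1 := Subsingleton.elim _ _
        rw [this]
        exact isUnit_one⟩
      uniq := fun a => Subtype.ext (Subsingleton.elim _ _) }
  exact Nat.card_unique

lemma nuS_le {K : ℕ} (a : Fin K → ℤ) (s : Fin K → ℕ) (p : ℕ) : nuS a s p ≤ p := by
  unfold nuS
  exact (Finset.card_filter_le _ _).trans (by simp)

open Classical in
lemma nuS_eq {K : ℕ} (a : Fin K → ℤ) (s : Fin K → ℕ) {p : ℕ} [Fact p.Prime] :
    nuS a s p = (univ.filter fun x : ZMod p => x = 0 ∨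
      ∃ i, (a i : ZMod p) * x + (s i : ZMod p) = 0).card := by
  have e1 : (univ.filter fun x : ZMod p => x = 0 ∨
      ∃ i, (a i : ZMod p) * x + (s i : ZMod p) = 0) =
      ((range p).filter fun n : ℕ => n = 0 ∨ ∃ i, (p : ℤ) ∣ a i * n + s i).image
        (fun n : ℕ => (n : ZMod p)) := by
    ext x
    simp only [mem_filter, mem_univ, true_and, mem_image, mem_range]
    constructor
    · intro hx
      refine ⟨x.val, ⟨ZMod.val_lt x, ?_⟩, ZMod.natCast_zmod_val x⟩
      rcases hx with rfl | ⟨i, hi⟩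
      · left
        exact ZMod.val_zero
      · right
        refine ⟨i, ?_⟩
        rw [← ZMod.intCast_zmod_eq_zero_iff_dvd]
        push_cast
        rw [ZMod.natCast_zmod_val]
        exact hi
    · rintro ⟨n, ⟨hn, h⟩, rfl⟩
      rcases h with rfl | ⟨i, hi⟩
      · left
        exact Nat.cast_zero
      · right
        refine ⟨i, ?_⟩
        rw [← ZMod.intCast_zmod_eq_zero_iff_dvd] at hi
        push_cast at hi
        exact hi
  rw [e1, Finset.card_image_of_injOn]
  · rfl
  · intro m hm n hn hmn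
    simp only [coe_filter, mem_range, Set.mem_ofPred_eq] at hm hn
    have h2 : ((m : ℕ) : ZMod p) = ((n : ℕ) : ZMod p) := hmn
    rw [ZMod.natCast_eq_natCast_iff'] at h2
    rwa [Nat.mod_eq_of_lt hm.1, Nat.mod_eq_of_lt hn.1] at h2

lemma nuS_le_card {K : ℕ} (a : Fin K → ℤ) (s : Fin K → ℕ) {p : ℕ} (hp : p.Prime)
    (ha : ∀ i, ¬ (p : ℤ) ∣ a i) : nuS a s p ≤ K + 1 := by
  classical
  have : Fact p.Prime := ⟨hp⟩
  rw [nuS_eq a s (p := p)]
  have h1 : (univ.filter fun x : ZMod p => x = 0 ∨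
      ∃ i, (a i : ZMod p) * x + (s i : ZMod p) = 0) ⊆
      insert 0 (univ.image fun i => -(s i : ZMod p) / (a i : ZMod p)) := by
    intro x hx
    rw [mem_filter] at hx
    rw [mem_insert]
    rcases hx.2 with h | ⟨i, hi⟩
    · exact Or.inl h
    · right
      rw [mem_image]
      refine ⟨i, mem_univ _, ?_⟩
      have hai : (a i : ZMod p) ≠ 0 := by
        rw [Ne, ZMod.intCast_zmod_eq_zero_iff_dvd]
        exact ha i
      rw [div_eq_iff hai]
      linear_combination -hi
  refine (Finset.card_le_card h1).trans ((Finset.card_insert_le _ _).trans ?_)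
  have := Finset.card_image_le (s := (univ : Finset (Fin K)))
    (f := fun i => -(s i : ZMod p) / (a i : ZMod p))
  simp only [card_univ, Fintype.card_fin] at this
  omega

lemma cG_prime {K : ℕ} (a : Fin K → ℤ) (s : Fin K → ℕ) {p : ℕ} (hp : p.Prime) :
    cG a s p = p - nuS a s p := by
  classical
  have : Fact p.Prime := ⟨hp⟩
  unfold cG
  rw [Nat.subtype_card (univ \ (univ.filter fun x : ZMod p => x = 0 ∨
      ∃ i, (a i : ZMod p) * x + (s i : ZMod p) = 0))]
  · rw [Finset.card_univ_sdiff, ZMod.card, nuS_eq a s (p := p)]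
  · intro x
    simp only [Finset.mem_sdiff, Finset.mem_univ, true_and, Finset.mem_filter, not_or,
      not_exists, isUnit_iff_ne_zero, ne_eq]

lemma filter_succ (z : ℕ) : (Icc 1 (z + 1)).filter Nat.Prime =
    if (z + 1).Prime then insert (z + 1) ((Icc 1 z).filter Nat.Prime) else
      (Icc 1 z).filter Nat.Prime := by
  have : Icc 1 (z + 1) = insert (z + 1) (Icc 1 z) := by
    ext n
    simp only [mem_Icc, mem_insert]
    omega
  rw [this, Finset.filter_insert]

lemma notMem_filter (z : ℕ) : z + 1 ∉ (Icc 1 z).filter Nat.Prime := by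
  simp

lemma PW_succ_prime {z : ℕ} (h : (z + 1).Prime) : PW (z + 1) = PW z * (z + 1) := by
  unfold PW
  rw [filter_succ, if_pos h, Finset.prod_insert (notMem_filter z), mul_comm]

lemma PW_succ_not {z : ℕ} (h : ¬ (z + 1).Prime) : PW (z + 1) = PW z := by
  unfold PW
  rw [filter_succ, if_neg h]

lemma PW_zero : PW 0 = 1 := by
  unfold PW
  simp

lemma coprime_PW {z : ℕ} (h : (z + 1).Prime) : (PW z).Coprime (z + 1) := by
  unfold PW
  refine Nat.Coprime.prod_left fun p hp => ?_
  rw [mem_filter, mem_Icc] at hp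
  rw [Nat.coprime_primes hp.2 h]
  omega

lemma cG_PW {K : ℕ} (a : Fin K → ℤ) (s : Fin K → ℕ) (z : ℕ) :
    cG a s (PW z) = ∏ p ∈ (Icc 1 z).filter Nat.Prime, (p - nuS a s p) := by
  induction z with
  | zero =>
    rw [PW_zero, cG_one]
    simp
  | succ z ih =>
    by_cases h : (z + 1).Prime
    · rw [PW_succ_prime h, cG_mul a s (coprime_PW h), ih, cG_prime a s h, filter_succ, if_pos h,
        Finset.prod_insert (notMem_filter z), mul_comm]
    · rw [PW_succ_not h, ih, filter_succ, if_neg h]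

lemma vv_mul {M N : ℕ} (h : M.Coprime N) : vv (M * N) = vv M * vv N := by
  unfold vv
  rw [Nat.totient_mul h]
  push_cast
  rw [mul_div_mul_comm]

lemma main_eq {K : ℕ} (a : Fin K → ℤ) (s : Fin K → ℕ) (z : ℕ) :
    (cG a s (PW z) : ℝ) / (PW z : ℝ) * vv (PW z) ^ (K + 1) = singPS a s z := by
  induction z with
  | zero =>
    rw [PW_zero, cG_one]
    simp [vv, singPS]
  | succ z ih =>
    by_cases h : (z + 1).Prime
    · have e1 : singPS a s (z + 1) = locS a s (z + 1) * singPS a s z := by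
        unfold singPS
        rw [filter_succ, if_pos h, Finset.prod_insert (notMem_filter z)]
      rw [e1, ← ih, PW_succ_prime h, cG_mul a s (coprime_PW h), vv_mul (coprime_PW h), mul_pow,
        cG_prime a s h]
      have hp1 : (1 : ℝ) < ((z + 1 : ℕ) : ℝ) := by exact_mod_cast h.one_lt
      have hpW : ((PW z : ℕ) : ℝ) ≠ 0 := by
        exact_mod_cast (NeZero.ne (PW z))
      have e2 : vv (z + 1) = (1 - 1 / ((z + 1 : ℕ) : ℝ))⁻¹ := by
        unfold vv
        rw [Nat.totient_prime h, Nat.cast_sub h.one_lt.le, Nat.cast_one]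
        have h1 : ((z + 1 : ℕ) : ℝ) - 1 ≠ 0 := by linarith
        have h2 : ((z + 1 : ℕ) : ℝ) ≠ 0 := by linarith
        field_simp
      have e3 : ((z + 1 - nuS a s (z + 1) : ℕ) : ℝ) = ((z + 1 : ℕ) : ℝ) - nuS a s (z + 1) := by
        rw [Nat.cast_sub (nuS_le a s (z + 1))]
      rw [e2, Nat.cast_mul, Nat.cast_mul, e3]
      unfold locS
      have h2 : ((z + 1 : ℕ) : ℝ) ≠ 0 := by linarith
      have h3 : 1 - 1 / ((z + 1 : ℕ) : ℝ) ≠ 0 := by
        have : 1 / ((z + 1 : ℕ) : ℝ) < 1 := by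
          rw [div_lt_one (by linarith)]
          exact hp1
        linarith
      rw [inv_pow]
      field_simp
    · have e1 : singPS a s (z + 1) = singPS a s z := by
        unfold singPS
        rw [filter_succ, if_neg h]
      rw [e1, PW_succ_not h, ih]

theorem t_MBSS : S_MBSS := by
  classical
  intro z X K a s
  constructor
  · unfold MbS
    rw [card_GS, ← main_eq]
    ring
  · intro hK ha
    rw [← Finset.card_pos, card_GS, cG_PW]
    rw [Nat.pos_iff_ne_zero, Finset.prod_ne_zero_iff]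
    constructor
    · intro h p hp
      rw [mem_filter] at hp
      have := h p hp.2
      omega
    · intro h p hp
      by_cases hz : p ≤ z
      · have := h p (mem_filter.2 ⟨mem_Icc.2 ⟨hp.one_lt.le, hz⟩, hp⟩)
        omega
      · have := nuS_le_card a s hp (fun i hdvd => by
          have h1 := Int.natAbs_dvd_natAbs.2 hdvd
          rw [Int.natAbs_natCast] at h1
          have h2 := Nat.le_of_dvd (Int.natAbs_pos.2 (ha i).1) h1
          have h3 := (ha i).2
          omega)
        omega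

end Pool.Agent.Q150.LSB

/-- the job MBSS -/
theorem Pool.Agent.Q145.LS.t_MBSS : Pool.Agent.Q145.LS.S_MBSS := Pool.Agent.Q150.LSB.t_MBSS
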