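import Pool.Agent.Q145.LS.Stm

/-!
Project LS (helper145), MOM1S: the first moment.
-/

set_option autoImplicit false

namespace Pool.Agent.Q150.LS

open Finset Filter
open Pool.Agent.Q145.SZ Pool.Agent.Q145.LS

theorem wt_nonneg (u : ℕ) : 0 ≤ wt u := by
  unfold wt
  split_ifs with h
  · exact Real.log_natCast_nonneg u
  · exact le_rfl

theorem prod_lower {ι : Type*} (T : Finset ι) (x : ι → ℝ) (hx : ∀ i, 0 ≤ x i) :
    1 - ∑ i ∈ T, |x i - 1| ≤ ∏ i ∈ T, x i := by
  classical
  induction T using Finset.induction_on with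
  | empty => simp
  | insert a T ha ih =>
    rw [sum_insert ha, prod_insert ha]
    have hP : 0 ≤ ∏ i ∈ T, x i := prod_nonneg fun i _ => hx i
    have hS : 0 ≤ ∑ i ∈ T, |x i - 1| := sum_nonneg fun i _ => abs_nonneg _
    have h1 := abs_nonneg (x a - 1)
    have h2 := neg_abs_le (x a - 1)
    have h3 := hx a
    rcases le_or_gt (1 - ∑ i ∈ T, |x i - 1|) 0 with h | h
    · have := mul_nonneg h3 hP
      linarith
    · have h4 := mul_le_mul_of_nonneg_left ih h3
      nlinarith

section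
variable {W : ℕ} [NeZero W]

omit [NeZero W] in
theorem A1s_nonneg (X : ℕ) (a : ℤ) (n : ℕ) (β : ZMod W) : 0 ≤ A1s X a n β := by
  unfold A1s
  exact div_nonneg (sum_nonneg fun s _ => wt_nonneg _) (Nat.cast_nonneg _)

omit [NeZero W] in
theorem E_eq {K : ℕ} (X : ℕ) (a : Fin K → ℤ) (b : Fin K → ZMod W) :
    (∑ s ∈ SbS X a b, wcS X a s) / ((SbS X a b).card : ℝ) =
      ∑ n ∈ Ioc X (2 * X), wt n * ∏ i, A1s X (a i) n (b i) := by
  have h1 : ∑ s ∈ SbS X a b, wcS X a s =
      ∑ n ∈ Ioc X (2 * X), wt n * ∏ i, ∑ s ∈ bcl X (a i) (b i), wt (vl (a i) n s) := by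
    unfold wcS
    rw [sum_comm]
    refine sum_congr rfl fun n _ => ?_
    unfold SbS
    rw [prod_univ_sum, mul_sum]
  rw [h1, sum_div]
  refine sum_congr rfl fun n _ => ?_
  unfold A1s SbS
  rw [Fintype.card_piFinset, Nat.cast_prod, prod_div_distrib, mul_div_assoc]

end

open Classical in
theorem t_MOM1S : S_MOM1S := by
  intro hLAW hUNI W _ X K a ε₀ δ hsq hWX hε₀ hδ ha hS hA
  have hW : 0 < W := Nat.pos_of_ne_zero (NeZero.ne W)
  have hWr : (0 : ℝ) < W := by exact_mod_cast hW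
  have hX : 0 < X := lt_of_lt_of_le hW hWX
  have hXr : (0 : ℝ) < X := by exact_mod_cast hX
  have hφ : (0 : ℝ) < Nat.totient W := by exact_mod_cast Nat.totient_pos.2 hW
  obtain ⟨v, hv⟩ : ∃ v : ℝ, v = vv W := ⟨_, rfl⟩
  have hv0 : 0 < v := by rw [hv]; exact div_pos hWr hφ
  have hvφ : v * Nat.totient W = W := by
    rw [hv]
    unfold vv
    field_simp
  obtain ⟨u, hu⟩ : ∃ u : Fin K → ZMod W, u = um W a := ⟨_, rfl⟩
  obtain ⟨R, hR⟩ : ∃ R : ℝ, R = ((AdW u).card : ℝ) := ⟨_, rfl⟩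
  have hR0 : 0 ≤ R := by rw [hR]; positivity
  rw [← hv, ← hu] at hA
  rw [← hu, ← hR]
  have hw0 : ∀ (n : ZMod W) (b : Fin K → ZMod W), 0 ≤ w1s u n b := by
    intro n b
    unfold w1s
    split_ifs <;> positivity
  -- one tuple of classes
  have hone : ∀ b ∈ AdW u, (W : ℝ) / (X * v) * ∑ n ∈ Ioc X (2 * X), wt n *
      (w1s u (n : ZMod W) b * (1 - ∑ i, |A1s X (a i) n (b i) / v - 1|)) ≤
      (∑ s ∈ SbS X a b, wcS X a s / MbS X u b) / (SbS X a b).card := by
    intro b hb
    unfold AdW at hb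
    rw [mem_filter] at hb
    have hg : (0 : ℝ) < (GS u b).card := by exact_mod_cast hb.2.card_pos
    have h1 : (∑ s ∈ SbS X a b, wcS X a s / MbS X u b) / ((SbS X a b).card : ℝ) =
        (∑ n ∈ Ioc X (2 * X), wt n * ∏ i, A1s X (a i) n (b i)) / MbS X u b := by
      rw [← sum_div, div_div, mul_comm, ← div_div, E_eq]
    rw [h1]
    have hMb : MbS X u b = X * ((GS u b).card : ℝ) / W * v ^ (K + 1) := by rw [hv]; rfl
    have hMb0 : 0 < MbS X u b := by rw [hMb]; positivity
    rw [le_div_iff₀ hMb0, mul_comm, ← mul_assoc, mul_sum]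
    refine sum_le_sum fun n _ => ?_
    have hwt := wt_nonneg n
    have hprod : 0 ≤ ∏ i, A1s X (a i) n (b i) := prod_nonneg fun i _ => A1s_nonneg X _ n (b i)
    by_cases hn : (n : ZMod W) ∈ GS u b
    · have hw : w1s u (n : ZMod W) b = ((GS u b).card : ℝ)⁻¹ := by
        unfold w1s
        rw [if_pos hn]
      rw [hw, hMb]
      have h3 := prod_lower univ (fun i => A1s X (a i) n (b i) / v)
        fun i => div_nonneg (A1s_nonneg _ _ _ _) hv0.le
      rw [prod_div_distrib, prod_const, card_univ, Fintype.card_fin] at h3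
      have h4 := mul_le_mul_of_nonneg_right h3 (by positivity : 0 ≤ v ^ K)
      rw [div_mul_cancel₀ _ (by positivity)] at h4
      have h5 : X * ((GS u b).card : ℝ) / W * v ^ (K + 1) * (W / (X * v)) *
          (wt n * (((GS u b).card : ℝ)⁻¹ * (1 - ∑ i, |A1s X (a i) n (b i) / v - 1|))) =
          wt n * ((1 - ∑ i, |A1s X (a i) n (b i) / v - 1|) * v ^ K) := by
        field_simp
        ring
      rw [h5]
      exact mul_le_mul_of_nonneg_left h4 hwt
    · have hw : w1s u (n : ZMod W) b = 0 := by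
        unfold w1s
        rw [if_neg hn]
      rw [hw, zero_mul, mul_zero, mul_zero]
      exact mul_nonneg hwt hprod
  -- the sum of the weights
  have hw1 : ∀ n ∈ Ioc X (2 * X), wt n ≠ 0 → ∑ b : Fin K → ZMod W, w1s u (n : ZMod W) b =
      R / Nat.totient W := by
    intro n hn hwn
    have hp : n.Prime := by
      by_contra h
      apply hwn
      unfold wt
      rw [if_neg h]
    have hnu : (n : ZMod W) ∈ uni W := by
      unfold uni
      rw [mem_filter]
      refine ⟨mem_univ _, ?_⟩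
      rw [ZMod.isUnit_iff_coprime]
      rw [mem_Ioc] at hn
      exact Nat.coprime_of_lt_prime (by omega) (by omega) hp
    rw [(hUNI W K u).1, if_pos hnu, hR]
  have hother : ∀ (n : ZMod W) (b : Fin K → ZMod W), b ∉ AdW u → w1s u n b = 0 := by
    intro n b hb
    unfold w1s
    rw [if_neg]
    intro hn
    apply hb
    unfold AdW
    rw [mem_filter]
    exact ⟨mem_univ _, _, hn⟩
  have hsum : ∀ n ∈ Ioc X (2 * X), wt n * (R / Nat.totient W * (1 - K * (δ * √(C18 W)))) ≤
      ∑ b ∈ AdW u, wt n *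
        (w1s u (n : ZMod W) b * (1 - ∑ i, |A1s X (a i) n (b i) / v - 1|)) := by
    intro n hn
    by_cases hwn : wt n = 0
    · rw [hwn, zero_mul]
      apply le_of_eq
      symm
      apply sum_eq_zero
      intro b _
      rw [zero_mul]
    rw [← mul_sum]
    apply mul_le_mul_of_nonneg_left _ (wt_nonneg n)
    have e1 : ∑ b ∈ AdW u, w1s u (n : ZMod W) b * (1 - ∑ i, |A1s X (a i) n (b i) / v - 1|) =
        ∑ b : Fin K → ZMod W, w1s u (n : ZMod W) b * (1 - ∑ i, |A1s X (a i) n (b i) / v - 1|) := by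
      apply sum_subset (subset_univ _)
      intro b _ hb
      rw [hother _ b hb, zero_mul]
    have e2 : ∑ b : Fin K → ZMod W, w1s u (n : ZMod W) b *
        (1 - ∑ i, |A1s X (a i) n (b i) / v - 1|) =
        ∑ b : Fin K → ZMod W, w1s u (n : ZMod W) b -
          ∑ i, ∑ b : Fin K → ZMod W, w1s u (n : ZMod W) b * |A1s X (a i) n (b i) / v - 1| := by
      rw [sum_comm, ← sum_sub_distrib]
      refine sum_congr rfl fun b _ => ?_
      rw [mul_sub, mul_one, mul_sum]
    rw [e1, e2, hw1 n hn hwn]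
    have e3 : ∀ i, ∑ b : Fin K → ZMod W, w1s u (n : ZMod W) b *
        |A1s X (a i) n (b i) / v - 1| ≤ δ * √(C18 W) * (R / Nat.totient W) := by
      intro i
      have := hLAW W hsq K u (n : ZMod W) i (fun β => |A1s X (a i) n β / v - 1|) δ hδ (by
        have h1 := hA i n hn
        have h2 : ∀ β : ZMod W, |A1s X (a i) n β / v - 1| ^ 2 =
            (A1s X (a i) n β - v) ^ 2 / v ^ 2 := by
          intro β
          rw [sq_abs]
          field_simp
        simp only [h2]
        rw [← sum_div, div_le_iff₀ (by positivity)]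
        refine h1.trans (le_of_eq ?_)
        ring)
      rwa [hw1 n hn hwn] at this
    have e4 : ∑ i, ∑ b : Fin K → ZMod W, w1s u (n : ZMod W) b *
        |A1s X (a i) n (b i) / v - 1| ≤ K * (δ * √(C18 W) * (R / Nat.totient W)) := by
      refine (sum_le_sum fun i _ => e3 i).trans (le_of_eq ?_)
      rw [sum_const, card_univ, Fintype.card_fin, nsmul_eq_mul]
    have e5 : R / Nat.totient W * (1 - K * (δ * √(C18 W))) =
        R / Nat.totient W - K * (δ * √(C18 W) * (R / Nat.totient W)) := by ring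
    rw [e5]
    linarith
  -- the total
  obtain ⟨S, hSdef⟩ : ∃ S : ℝ, S = ∑ n ∈ Ioc X (2 * X), wt n := ⟨_, rfl⟩
  rw [← hSdef, abs_le] at hS
  have htot : (W : ℝ) / (X * v) * (S * (R / Nat.totient W * (1 - K * (δ * √(C18 W))))) ≤
      ∑ b ∈ AdW u, (∑ s ∈ SbS X a b, wcS X a s / MbS X u b) / (SbS X a b).card := by
    calc (W : ℝ) / (X * v) * (S * (R / Nat.totient W * (1 - K * (δ * √(C18 W)))))
        = (W : ℝ) / (X * v) * ∑ n ∈ Ioc X (2 * X), wt n *
            (R / Nat.totient W * (1 - K * (δ * √(C18 W)))) := by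
          rw [hSdef, sum_mul]
      _ ≤ (W : ℝ) / (X * v) * ∑ n ∈ Ioc X (2 * X), ∑ b ∈ AdW u, wt n *
            (w1s u (n : ZMod W) b * (1 - ∑ i, |A1s X (a i) n (b i) / v - 1|)) := by
          apply mul_le_mul_of_nonneg_left (sum_le_sum hsum) (by positivity)
      _ = ∑ b ∈ AdW u, (W : ℝ) / (X * v) * ∑ n ∈ Ioc X (2 * X), wt n *
            (w1s u (n : ZMod W) b * (1 - ∑ i, |A1s X (a i) n (b i) / v - 1|)) := by
          rw [sum_comm, mul_sum]
      _ ≤ _ := sum_le_sum hone
  refine le_trans ?_ htot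
  have h1 : (W : ℝ) / (X * v) * (S * (R / Nat.totient W * (1 - K * (δ * √(C18 W))))) =
      (S / X - S / X * (K * (δ * √(C18 W)))) * R := by
    have : (W : ℝ) / (X * v) * (1 / Nat.totient W) = 1 / X := by
      rw [← hvφ]
      field_simp
    calc (W : ℝ) / (X * v) * (S * (R / Nat.totient W * (1 - K * (δ * √(C18 W)))))
        = ((W : ℝ) / (X * v) * (1 / Nat.totient W)) * (S * R * (1 - K * (δ * √(C18 W)))) := by ring
      _ = _ := by rw [this]; ring
  rw [h1]
  apply mul_le_mul_of_nonneg_right _ hR0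
  have h2 : 1 - ε₀ ≤ S / X := by
    rw [le_div_iff₀ hXr]
    linarith [hS.1]
  have h3 : S / X ≤ 1 + ε₀ := by
    rw [div_le_iff₀ hXr]
    linarith [hS.2]
  have h4 : 0 ≤ K * (δ * √(C18 W)) := by positivity
  have h5 := mul_le_mul_of_nonneg_right h3 h4
  linarith

end Pool.Agent.Q150.LS

/-- the job MOM1S -/
theorem Pool.Agent.Q145.LS.t_MOM1S : Pool.Agent.Q145.LS.S_MOM1S := Pool.Agent.Q150.LS.t_MOM1S
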