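import Pool.Agent.Q145.LS.Stm

set_option autoImplicit false

/-!
# Project LS, job SPC: pair singular series at two scales
-/

namespace Pool.Agent.Q145.LS

open Finset
open Pool.Agent.Q145.SZ

theorem t_SPC : S_SPC := by
  intro z X A h hz hA hAz hh hhX hzX
  have hsplit : (Ioc z (A * X)).filter Nat.Prime = (Ioc z X).filter Nat.Prime ∪ (Ioc X (A * X)).filter Nat.Prime := by
    rw [← filter_union, Ioc_union_Ioc_eq_Ioc hzX (Nat.le_mul_of_pos_left X (by omega))]
  have hdisj : Disjoint ((Ioc z X).filter Nat.Prime) ((Ioc X (A * X)).filter Nat.Prime) := by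
    rw [disjoint_left]
    intro p hp hp'
    simp only [mem_filter, mem_Ioc] at hp hp'
    omega
  have hnA : ∀ p, z < p → ¬ p ∣ A := fun p hp hd => by
    have := Nat.le_of_dvd (by omega) hd
    omega
  have hnh : ∀ p, X < p → ¬ p ∣ h := fun p hp hd => by
    have := Nat.le_of_dvd (by omega) hd
    omega
  have hfac : ∀ p : ℕ, z < p → (0 : ℝ) ≤ 1 - 1 / ((p : ℝ) - 1) ^ 2 ∧ 1 - 1 / ((p : ℝ) - 1) ^ 2 ≤ 1 := by
    intro p hp
    have h1 : (2 : ℝ) ≤ (p : ℝ) - 1 := by
      have : (3 : ℝ) ≤ p := by exact_mod_cast (by omega : 3 ≤ p)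
      linarith
    have h2 : (1 : ℝ) ≤ ((p : ℝ) - 1) ^ 2 := by nlinarith
    have h3 : 1 / ((p : ℝ) - 1) ^ 2 ≤ 1 := by
      rw [div_le_one (by positivity)]
      exact h2
    have h4 : 0 ≤ 1 / ((p : ℝ) - 1) ^ 2 := by positivity
    constructor <;> linarith
  have hSP0 : 0 ≤ SP z X h := by
    unfold SP
    refine prod_nonneg fun p hp => ?_
    rw [mem_filter, mem_Ioc] at hp
    split_ifs
    · have : (1 : ℝ) ≤ p := by exact_mod_cast hp.2.one_le
      exact div_nonneg (by linarith) (by linarith)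
    · exact (hfac p hp.1.1).1
  have e1 : SP z (A * X) (A * h) = SP z X h * ∏ p ∈ (Ioc X (A * X)).filter Nat.Prime, (1 - 1 / ((p : ℝ) - 1) ^ 2) := by
    unfold SP
    rw [hsplit, prod_union hdisj]
    congr 1
    · refine prod_congr rfl fun p hp => ?_
      rw [mem_filter, mem_Ioc] at hp
      have : p ∣ A * h ↔ p ∣ h := by
        rw [hp.2.dvd_mul]
        exact ⟨fun h' => h'.resolve_left (hnA p hp.1.1), Or.inr⟩
      simp only [this]
    · refine prod_congr rfl fun p hp => ?_
      rw [mem_filter, mem_Ioc] at hp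
      have : ¬ p ∣ A * h := by
        rw [hp.2.dvd_mul]
        rintro (h' | h')
        · exact hnA p (by omega) h'
        · exact hnh p hp.1.1 h'
      rw [if_neg this]
  rw [e1]
  refine mul_le_of_le_one_right hSP0 (prod_le_one (fun p hp => ?_) fun p hp => ?_)
  · rw [mem_filter, mem_Ioc] at hp
    exact (hfac p (by omega)).1
  · rw [mem_filter, mem_Ioc] at hp
    exact (hfac p (by omega)).2

end Pool.Agent.Q145.LS
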