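import Pool.Agent.Q145.LS.Stm
import Pool.Agent.Q111.SZ.SQ3

set_option autoImplicit false

/-!
# Project LS, job SQ2: sums of `1 / p ^ 2` and `1 / p ^ (3 / 2)`
-/

namespace Pool.Agent.Q145.LS

open Finset
open Pool.Agent.Q145.SZ

/-- partial sums of `log p / p ^ 2` -/
noncomputable def BB (z w : ℕ) : ℝ := ∑ p ∈ (Ioc z w).filter Nat.Prime, Real.log p / (p : ℝ) ^ 2

theorem BB_succ {z w : ℕ} (h : z ≤ w) : BB z (w + 1) = BB z w +
    (if (w + 1).Prime then Real.log ((w + 1 : ℕ) : ℝ) else 0) / ((w + 1 : ℕ) : ℝ) ^ 2 := by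
  unfold BB
  rw [← Finset.insert_Ioc_right_eq_Ioc_add_one h, filter_insert]
  split_ifs with h1
  · rw [sum_insert (by simp), add_comm]
  · simp

theorem BB_le {z w : ℕ} (hz : 1 ≤ z) (h : z ≤ w) : BB z w ≤
    Chebyshev.theta (w : ℝ) / (w : ℝ) ^ 2 + Real.log 4 * 2 * (1 / (z : ℝ) - 1 / (w : ℝ)) := by
  induction w, h using Nat.le_induction with
  | base =>
    have : BB z z = 0 := by simp [BB]
    rw [this, sub_self, mul_zero, add_zero]
    exact div_nonneg (Chebyshev.theta_nonneg _) (by positivity)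
  | succ w h ih =>
    have hw : (0 : ℝ) < w := by exact_mod_cast (by omega : 0 < w)
    have h1 := Chebyshev.theta_le_log4_mul_x hw.le
    have h2 : Chebyshev.theta (w : ℝ) * (1 / (w : ℝ) ^ 2 - 1 / ((w + 1 : ℕ) : ℝ) ^ 2) ≤
        Real.log 4 * 2 * (1 / (w : ℝ) - 1 / ((w + 1 : ℕ) : ℝ)) := by
      have h3 : (0 : ℝ) ≤ 1 / (w : ℝ) ^ 2 - 1 / ((w + 1 : ℕ) : ℝ) ^ 2 := by
        rw [sub_nonneg]
        apply one_div_le_one_div_of_le (by positivity)
        apply pow_le_pow_left₀ hw.le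
        push_cast
        linarith
      refine (mul_le_mul_of_nonneg_right h1 h3).trans ?_
      have h4 : (w : ℝ) * (1 / (w : ℝ) ^ 2 - 1 / ((w + 1 : ℕ) : ℝ) ^ 2) ≤
          2 * (1 / (w : ℝ) - 1 / ((w + 1 : ℕ) : ℝ)) := by
        push_cast
        rw [← sub_nonneg]
        have h5 : 2 * (1 / (w : ℝ) - 1 / ((w : ℝ) + 1)) -
            w * (1 / (w : ℝ) ^ 2 - 1 / ((w : ℝ) + 1) ^ 2) =
            1 / ((w : ℝ) * ((w : ℝ) + 1) ^ 2) := by
          field_simp
          ring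
        rw [h5]
        positivity
      have h6 : (0 : ℝ) ≤ Real.log 4 := Real.log_nonneg (by norm_num)
      calc Real.log 4 * w * (1 / (w : ℝ) ^ 2 - 1 / ((w + 1 : ℕ) : ℝ) ^ 2)
          = Real.log 4 * (w * (1 / (w : ℝ) ^ 2 - 1 / ((w + 1 : ℕ) : ℝ) ^ 2)) := by ring
        _ ≤ Real.log 4 * (2 * (1 / (w : ℝ) - 1 / ((w + 1 : ℕ) : ℝ))) :=
            mul_le_mul_of_nonneg_left h4 h6
        _ = _ := by ring
    rw [BB_succ h, Pool.Agent.Q111.SZ.theta_succ w, add_div]
    have e1 : Chebyshev.theta (w : ℝ) * (1 / (w : ℝ) ^ 2 - 1 / ((w + 1 : ℕ) : ℝ) ^ 2) =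
      Chebyshev.theta (w : ℝ) / (w : ℝ) ^ 2 - Chebyshev.theta (w : ℝ) / ((w + 1 : ℕ) : ℝ) ^ 2 := by ring
    rw [e1] at h2
    linarith

theorem BB_le' {z w : ℕ} (hz : 1 ≤ z) (h : z ≤ w) : BB z w ≤ Real.log 4 * 2 / (z : ℝ) := by
  refine (BB_le hz h).trans ?_
  have hw : (0 : ℝ) < w := by exact_mod_cast (by omega : 0 < w)
  have h1 : Chebyshev.theta (w : ℝ) / (w : ℝ) ^ 2 ≤ Real.log 4 * (1 / (w : ℝ)) := by
    rw [div_le_iff₀ (by positivity)]
    refine (Chebyshev.theta_le_log4_mul_x hw.le).trans (le_of_eq ?_)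
    field_simp
  have h6 : (0 : ℝ) ≤ Real.log 4 := Real.log_nonneg (by norm_num)
  have h7 : (0 : ℝ) ≤ Real.log 4 * (1 / (w : ℝ)) := by positivity
  have e1 : Real.log 4 * 2 / (z : ℝ) = Real.log 4 * 2 * (1 / (z : ℝ)) := by ring
  rw [e1, mul_sub]
  linarith

theorem root_le {z w : ℕ} (hz : 1 ≤ z) (h : z ≤ w) :
    ∑ n ∈ Ioc z w, 1 / ((n : ℝ) * √n) ≤ 2 * (1 / √z - 1 / √w) := by
  induction w, h using Nat.le_induction with
  | base => simp
  | succ w h ih =>
    rw [← Finset.insert_Ioc_right_eq_Ioc_add_one h, sum_insert (by simp)]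
    have hw : (0 : ℝ) < w := by exact_mod_cast (by omega : 0 < w)
    have hw1 : (0 : ℝ) < ((w + 1 : ℕ) : ℝ) := by positivity
    set a := √(w : ℝ) with ha
    set b := √((w + 1 : ℕ) : ℝ) with hb
    have ha0 : 0 < a := Real.sqrt_pos.2 hw
    have hb0 : 0 < b := Real.sqrt_pos.2 hw1
    have hab : a ≤ b := Real.sqrt_le_sqrt (by push_cast; linarith)
    have ha2 : a ^ 2 = w := Real.sq_sqrt hw.le
    have hb2 : b ^ 2 = ((w + 1 : ℕ) : ℝ) := Real.sq_sqrt hw1.le
    have hd : b ^ 2 - a ^ 2 = 1 := by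
      rw [ha2, hb2]
      push_cast
      ring
    have key : 1 / (b ^ 2 * b) ≤ 2 * (1 / a - 1 / b) := by
      rw [div_le_iff₀ (by positivity)]
      have e : 2 * (1 / a - 1 / b) * (b ^ 2 * b) = 2 * (b - a) * b ^ 2 / a := by
        field_simp
      rw [e, le_div_iff₀ ha0, one_mul]
      nlinarith [mul_nonneg (sub_nonneg.2 hab) hb0.le, mul_nonneg (sub_nonneg.2 hab) ha0.le, mul_nonneg (mul_nonneg (sub_nonneg.2 hab) hb0.le) ha0.le, mul_pos ha0 hb0, sq_nonneg (b - a), mul_nonneg (sub_nonneg.2 hab) (sq_nonneg (b - a))]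
    rw [← hb2]
    linarith

theorem t_SQ2 : S_SQ2 := by
  have h4 : 0 < Real.log 4 := Real.log_pos (by norm_num)
  refine ⟨Real.log 4 * 2 + 2, by positivity, ?_⟩
  intro z w hz
  have hlz : 0 < Real.log z := Real.log_pos (by exact_mod_cast (by omega : 1 < z))
  have hzp : (0 : ℝ) < z := by exact_mod_cast (by omega : 0 < z)
  have hsz : 0 < √(z : ℝ) := Real.sqrt_pos.2 hzp
  rcases le_or_gt z w with h | h
  · constructor
    · have h1 : (∑ p ∈ (Ioc z w).filter Nat.Prime, 1 / (p : ℝ) ^ 2) * Real.log z ≤ BB z w := by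
        unfold BB
        rw [sum_mul]
        apply sum_le_sum
        intro p hp
        rw [mem_filter, mem_Ioc] at hp
        have hp0 : (0 : ℝ) < p := by exact_mod_cast hp.2.pos
        rw [div_mul_eq_mul_div, one_mul]
        apply div_le_div_of_nonneg_right _ (by positivity)
        exact Real.log_le_log hzp (by exact_mod_cast hp.1.1.le)
      rw [← le_div_iff₀ hlz] at h1
      refine h1.trans ?_
      rw [← div_div]
      refine div_le_div_of_nonneg_right ((BB_le' (by omega) h).trans ?_) hlz.le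
      exact div_le_div_of_nonneg_right (by linarith) hzp.le
    · refine (sum_le_sum_of_subset_of_nonneg (filter_subset _ _) fun n _ _ => by positivity).trans ?_
      refine (root_le (by omega) h).trans ?_
      have h5 : 0 ≤ 1 / √(w : ℝ) := by positivity
      have h6 : 2 * (1 / √(z : ℝ)) ≤ (Real.log 4 * 2 + 2) / √z := by
        rw [mul_one_div]
        exact div_le_div_of_nonneg_right (by linarith) hsz.le
      linarith
  · rw [Ioc_eq_empty (by omega), filter_empty, sum_empty, sum_empty]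
    constructor <;> positivity

end Pool.Agent.Q145.LS
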