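import Pool.Agent.Q145.LS.Var

/-!
# Project LS: the variance (2)
-/

set_option autoImplicit false

namespace Pool.Agent.Q145.LS

open Finset Filter
open Pool.Agent.Q145.SZ

lemma K_le_W {z K : ℕ} (hz : 64 ≤ z) (hK : 16 * K ≤ z) (hz1 : Real.exp ((z : ℝ) / 2) ≤ PW z) : (K : ℝ) * (z : ℝ) ^ 2 ≤ (PW z : ℝ) ^ 6 := by
  have h1 : (z : ℝ) / 2 + 1 ≤ Real.exp ((z : ℝ) / 2) := Real.add_one_le_exp _
  have hzr : (64 : ℝ) ≤ z := by exact_mod_cast hz
  have hKz : (16 : ℝ) * K ≤ z := by exact_mod_cast hK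
  have h2 : (z : ℝ) ≤ (PW z : ℝ) ^ 2 := by
    have : (z : ℝ) / 2 ≤ PW z := by linarith
    nlinarith
  have h3 : (K : ℝ) ≤ (PW z : ℝ) ^ 2 := by linarith
  have h4 : (0 : ℝ) ≤ z := by linarith
  calc (K : ℝ) * (z : ℝ) ^ 2 ≤ (PW z : ℝ) ^ 2 * ((PW z : ℝ) ^ 2) ^ 2 := by gcongr
    _ = _ := by ring

open Classical in
lemma var_boundS (l1 : S_LAW1S') (l2 : S_LAW2S') (un : S_UNI) (red : S_RED) (m1 : S_MOM1S) (m2 : S_MOM2S) (hs : S_HS') (hss : S_HSS')
    (sv : S_SIEVE) (spc : S_SPC) (pb : S_PWB) (pc : S_PWC) (us : S_US) :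
    ∃ a₀ : ℕ, ∀ η : ℝ, 0 < η → ∃ M : ℝ, 1 ≤ M ∧ ∀ (z X K : ℕ) (a : Fin K → ℤ), M ≤ Real.log (Real.log X) →
      64 * Real.log (Real.log X) ≤ z → 64 * z * Real.log (Real.log X) ≤ Real.log X → 16 * K ≤ z → (∀ i, a i ≠ 0 ∧ (a i).natAbs ≤ z) →
      IN (2 * (a₀ + 11)) z X →
      ∑ b ∈ AdW (um (PW z) a), (∑ s ∈ SbS X a b, (wcS X a s / MbS X (um (PW z) a) b - 1) ^ 2) / ((SbS X a b).card : ℝ) ≤ η * ((AdW (um (PW z) a)).card : ℝ) := by
  obtain ⟨Cs, Xs, hCs, hsv⟩ := sv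
  obtain ⟨Ch, zh, hCh, hhs⟩ := hs
  obtain ⟨Cg, zg, hCg, hhss⟩ := hss
  obtain ⟨Cc, hCc, hpc⟩ := pc
  obtain ⟨z₁, hz₁⟩ := pb.2
  obtain ⟨a₀, ha₀⟩ := exists_nat_ge (2 * Cs)
  refine ⟨a₀, ?_⟩
  intro η hη
  set η' := min η 1 with hη'
  have hη'0 : 0 < η' := by positivity
  have hη'1 : η' ≤ 1 := min_le_right _ _
  set M : ℝ := 64 + 256 / η' + 512 * (1 + Cc) / η' + 16 * (1 + Cc) + Real.exp (16 * Ch / η') + Real.exp (32 * Cg / η') + Cg + zh + zg + z₁ + Xs with hM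
  have p1 : 0 < 256 / η' := by positivity
  have p2 : 0 < 512 * (1 + Cc) / η' := by positivity
  have p3 : 0 < 16 * (1 + Cc) := by positivity
  have p4 := Real.exp_pos (16 * Ch / η')
  have p4' := Real.exp_pos (32 * Cg / η')
  have p5 : (0 : ℝ) ≤ zh := by positivity
  have p5' : (0 : ℝ) ≤ zg := by positivity
  have p6 : (0 : ℝ) ≤ z₁ := by positivity
  have p7 : (0 : ℝ) ≤ Xs := by positivity
  have hM64 : 64 ≤ M := by linarith
  have hM1 : 1 ≤ M := by linarith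
  refine ⟨M, hM1, ?_⟩
  intro z X K a hX hz hzL hK ha hIN
  obtain ⟨hL0, hLM, hzM, hzL', hzl, hXe, hLe, hl1, hlL⟩ := elem (C := 64) le_rfl hM1 hX hz hzL
  have hM0 : 0 < M := by linarith
  have hz0 : (0 : ℝ) < z := by linarith
  have hzMM : M ≤ z := by linarith
  have hz1 : z₁ ≤ z := by
    have : (z₁ : ℝ) ≤ z := by linarith
    exact_mod_cast this
  have hzh : zh ≤ z := by
    have : (zh : ℝ) ≤ z := by linarith
    exact_mod_cast this
  have hzg : zg ≤ z := by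
    have : (zg : ℝ) ≤ z := by linarith
    exact_mod_cast this
  have hz64 : 64 ≤ z := by
    have : (64 : ℝ) ≤ z := by linarith
    exact_mod_cast this
  have hXL : Real.log X ≤ X := by
    have := Real.add_one_le_exp (Real.log X)
    rw [← hXe] at this; linarith
  have hXs : Xs ≤ X := by
    have : (Xs : ℝ) ≤ X := by linarith
    exact_mod_cast this
  have hX3 : 3 ≤ X := by
    have : (3 : ℝ) ≤ X := by linarith
    exact_mod_cast this
  have hzX : z ≤ X := by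
    have : (z : ℝ) ≤ X := by linarith
    exact_mod_cast this
  have hX0 : (0 : ℝ) < X := by linarith
  have hl64 : 64 ≤ Real.log (Real.log X) := by linarith
  have hscale := fun (g : ℕ) (h1 : 1 ≤ g) (h2 : g ≤ z) => scale hl64 hz hzL h1 h2
  set L := Real.log X with hL
  set l := Real.log L with hl
  have hW1 := one_le_PW z
  have hWe : (PW z : ℝ) ≤ Real.exp (2 * z) := PW_le pb z
  -- δ
  have hlz0' : 16 * Ch / η' ≤ Real.log z := by
    rw [Real.le_log_iff_exp_le hz0]; linarith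
  have hlogz : 32 * Cg / η' ≤ Real.log z := by
    rw [Real.le_log_iff_exp_le hz0]; linarith
  have hlz0 : 0 < Real.log z := lt_of_lt_of_le (by positivity) hlogz
  have hδh : 1 + Ch / Real.log z ≤ 2 := by
    have : Ch / Real.log z ≤ η' / 16 := by
      rw [div_le_iff₀ hlz0]
      rw [div_le_iff₀ hη'0] at hlz0'
      linarith
    linarith
  have hδg : Cg / Real.log z ≤ η' / 32 := by
    rw [div_le_iff₀ hlz0]
    rw [div_le_iff₀ hη'0] at hlogz
    linarith
  have hL1 : 1 ≤ L := by linarith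
  have hε : 1 / L ^ (a₀ + 11) ≤ 1 / M := by
    have e : L ^ (a₀ + 11) = L ^ (a₀ + 10) * L := by ring
    have g0 : (1 : ℝ) ≤ L ^ (a₀ + 10) := one_le_pow₀ hL1
    rw [e]
    apply one_div_le_one_div_of_le hM0
    nlinarith
  have hMη : 1 / M ≤ η' / 256 := by
    have : 256 / η' ≤ M := by linarith
    rw [div_le_iff₀ hM0]; rw [div_le_iff₀ hη'0] at this; linarith
  have hε0 : 0 ≤ 1 / L ^ (a₀ + 11) := by positivity
  have hε1 : 1 / L ^ (a₀ + 11) ≤ 1 := by linarith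
  have hH0 : 0 ≤ Cg / Real.log z + 3 * (1 / L ^ (a₀ + 11)) := by positivity
  have hH : Cg / Real.log z + 3 * (1 / L ^ (a₀ + 11)) ≤ η' / 16 := by linarith
  -- conditions
  have hW20 : (PW z : ℝ) ^ 20 ≤ X := by
    calc (PW z : ℝ) ^ 20 ≤ (Real.exp (2 * z)) ^ 20 := by gcongr
      _ = Real.exp (40 * z) := by rw [← Real.exp_nat_mul]; ring_nf
      _ ≤ Real.exp L := Real.exp_le_exp.2 (by linarith)
      _ = X := hXe.symm
  have hWX : (PW z : ℝ) * 2 ≤ X := by
    calc (PW z : ℝ) * 2 ≤ Real.exp (2 * z) * Real.exp z := by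
          gcongr; linarith [Real.add_one_le_exp (z : ℝ)]
      _ = Real.exp (3 * z) := by rw [← Real.exp_add]; ring_nf
      _ ≤ Real.exp L := Real.exp_le_exp.2 (by linarith)
      _ = X := hXe.symm
  have hWXn : PW z ≤ X := by
    have : (PW z : ℝ) ≤ X := by linarith
    exact_mod_cast this
  have hLKe : ∀ j : ℕ, (j : ℝ) ≤ 2 * z + 24 → L ^ j ≤ Real.exp (L / 2) := by
    intro j hj
    calc L ^ j = (Real.exp l) ^ j := by rw [← hLe]
      _ = Real.exp (j * l) := by rw [← Real.exp_nat_mul]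
      _ ≤ Real.exp (L / 2) := by
        apply Real.exp_le_exp.2
        have : (j : ℝ) * l ≤ (2 * z + 24) * l := by gcongr
        have h2 : l ≤ z * l / 64 := by
          have : (64 : ℝ) ≤ z := by linarith
          nlinarith
        nlinarith
  have hW4 : (PW z : ℝ) ^ 4 ≤ Real.exp (L / 2) := by
    calc (PW z : ℝ) ^ 4 ≤ (Real.exp (2 * z)) ^ 4 := by gcongr
      _ = Real.exp (8 * z) := by rw [← Real.exp_nat_mul]; ring_nf
      _ ≤ _ := Real.exp_le_exp.2 (by linarith)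
  have hCgz : Cg * z ≤ L / 2 := by
    have : Cg * (z : ℝ) ≤ l * z := by gcongr; linarith
    nlinarith
  have hKz : (16 : ℝ) * K ≤ z := by exact_mod_cast hK
  have hhs2 := hhs z X (2 * K) hzh (by omega) (by
    calc (PW z : ℝ) ^ 4 * L ^ (16 * (2 * K) + 4) ≤ Real.exp (L / 2) * Real.exp (L / 2) := by
          gcongr
          apply hLKe
          push_cast; linarith
      _ = Real.exp L := by rw [← Real.exp_add]; ring_nf
      _ = X := hXe.symm)
  have hSP : ∀ Z h, 1 / 2 ≤ SP z Z h := fun Z h => us.2.2 z Z h (by omega)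
  have hSP0 : ∀ Z h, 0 < SP z Z h := fun Z h => lt_of_lt_of_le (by norm_num) (hSP Z h)
  obtain ⟨hgg, hEQ, hTH⟩ := hIN
  unfold EQc at hEQ
  unfold THc at hTH
  rw [← hL] at hEQ hTH
  have hexE : ∀ g : ℕ, ∃ E : Finset (ℕ × ℕ), 1 ≤ g → g ≤ z → (E.card : ℝ) ≤ ((g * X : ℕ) : ℝ) ^ 2 / (PW z : ℝ) ^ (2 * (a₀ + 11)) ∧
      ∀ n ∈ Ioc (g * X) (2 * (g * X)), ∀ m ∈ Ioc (g * X) (2 * (g * X)), n ≠ m → (n, m) ∉ E →
      ∑ β ∈ Us (n : ZMod (PW z)) (m : ZMod (PW z)), (B2 (g * X) n m β - vv (PW z) ^ 2 * SP z (g * X) (dst n m)) ^ 2 ≤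
        (1 / Real.log ((g * X : ℕ) : ℝ) ^ (2 * (a₀ + 11)) * vv (PW z) ^ 2 * SP z (g * X) (dst n m)) ^ 2 * (Us (n : ZMod (PW z)) (m : ZMod (PW z))).card := by
    intro g
    by_cases hg : 1 ≤ g ∧ g ≤ z
    · obtain ⟨E, hE1, hE2⟩ := (hgg g hg.1 hg.2).2
      exact ⟨E, fun _ _ => ⟨hE1, hE2⟩⟩
    · exact ⟨∅, fun h1 h2 => absurd ⟨h1, h2⟩ hg⟩
  choose Eg hEg using hexE
  set E : Finset (ℕ × ℕ) := ((Ioc X (2 * X)) ×ˢ (Ioc X (2 * X))).filter fun q : ℕ × ℕ => ∃ i, (fl X (a i) q.1, fl X (a i) q.2) ∈ Eg (a i).natAbs with hE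
  have hEc : (E.card : ℝ) ≤ (X : ℝ) ^ 2 / (PW z : ℝ) ^ (2 * (a₀ + 8)) := by
    refine (exc_card red a ha Eg fun g h1 h2 => (hEg g h1 h2).1).trans ?_
    have h6 := K_le_W hz64 hK (hz₁ z hz1)
    have hW0 : (0 : ℝ) < PW z := by linarith
    calc (K : ℝ) * (z : ℝ) ^ 2 * ((X : ℝ) ^ 2 / (PW z : ℝ) ^ (2 * (a₀ + 11))) ≤ (PW z : ℝ) ^ 6 * ((X : ℝ) ^ 2 / (PW z : ℝ) ^ (2 * (a₀ + 11))) := by gcongr
      _ = _ := by
        have : (PW z : ℝ) ^ (2 * (a₀ + 11)) = (PW z : ℝ) ^ 6 * (PW z : ℝ) ^ (2 * (a₀ + 8)) := by ring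
        rw [this]; field_simp
  have hv := vv_pos z
  have hgi : ∀ i, 1 ≤ (a i).natAbs := fun i => Int.natAbs_pos.2 (ha i).1
  have hum : ∀ i, um (PW z) a i = (a i : ZMod (PW z)) := fun i => rfl
  -- the first moment
  have f1 := m1 l1 un (PW z) X K a (1 / L ^ (a₀ + 11)) (3 * (1 / L ^ (a₀ + 11) + PW z / X)) (PW_sqf z) hWXn hε0 (by positivity) (fun i => (ha i).1) (by
      have h5 : (∑ n ∈ Ioc X (2 * X), wt n - X) ^ 2 ≤ (1 / L ^ (a₀ + 11) * X) ^ 2 := by
        refine hTH.trans (le_of_eq ?_)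
        rw [mul_comm 2, pow_mul]; field_simp
      exact abs_le_of_sq_le_sq h5 (by positivity)) (by
      intro i n hn
      obtain ⟨hfl, -⟩ := (red X (a i) (ha i).1).1 n hn
      obtain ⟨s1, s2, s3, s4, s5, -⟩ := hscale _ (hgi i) (ha i).2
      have h5 := (hgg _ (hgi i) (ha i).2).1 (fl X (a i) n) hfl
      have hA := ((red X (a i) (ha i).1).2.2 (PW z)).2.2.1 n hn
      rw [hum, card_Us red (ha i).1 hn hn]
      have h6 := sum_Us (W := PW z) red (ha i).1 hn hn (fun β => (A1 ((a i).natAbs * X) (fl X (a i) n) β - vv (PW z)) ^ 2)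
      rw [sum_congr rfl fun β _ => by rw [hA β], h6]
      refine h5.trans ?_
      rw [mul_pow]
      refine mul_le_mul_of_nonneg_right (mul_le_mul_of_nonneg_right ?_ (sq_nonneg _)) (Nat.cast_nonneg _)
      have h7 : 1 / Real.log (((a i).natAbs * X : ℕ) : ℝ) ^ (2 * (a₀ + 11)) ≤ (1 / L ^ (a₀ + 11)) ^ 2 := by
        rw [div_pow, one_pow, ← pow_mul, mul_comm (a₀ + 11) 2]
        gcongr
      have h8 : (PW z : ℝ) / (((a i).natAbs * X : ℕ) : ℝ) ≤ PW z / X := by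
        have : (X : ℝ) ≤ (((a i).natAbs * X : ℕ) : ℝ) := by exact_mod_cast s5
        gcongr
      have h9 : ((PW z : ℝ) / (((a i).natAbs * X : ℕ) : ℝ)) ^ 2 ≤ (PW z / X) ^ 2 := by gcongr
      have h10 : 0 ≤ (PW z : ℝ) / X := by positivity
      nlinarith [mul_nonneg hε0 h10])
  -- the second moment
  have hesum : ∑ q ∈ E.filter (fun q => q.1 ∈ Ioc X (2 * X) ∧ q.2 ∈ Ioc X (2 * X) ∧ q.1 ≠ q.2), SP z X (dst q.1 q.2) ^ K ≤
      2 / (PW z : ℝ) ^ (a₀ + 8) * (X : ℝ) ^ 2 :=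
    esum (fun h => (hSP0 X h).le) (fun c d => (hhs2 c d).trans (mul_le_mul_of_nonneg_left hδh (by positivity))) E hEc
  have hHSS := hhss z X K (1 / L ^ (a₀ + 11)) hzg (by omega) (by
      calc Real.exp (Cg * z) * L ^ (16 * K + 24) ≤ Real.exp (L / 2) * Real.exp (L / 2) := by
            gcongr
            apply hLKe
            push_cast; linarith
        _ = Real.exp L := by rw [← Real.exp_add]; ring_nf
        _ = X := hXe.symm) hWXn hε0 hε1 (by
      refine hEQ.trans (le_of_eq ?_)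
      rw [div_pow, one_pow, ← pow_mul, mul_comm (a₀ + 11) 2]
      field_simp)
  have f2 := m2 l2 un (PW z) X K a (1 / L ^ (2 * (a₀ + 11))) (2 * Cs) (16 * L ^ 2) (Cg / Real.log z + 3 * (1 / L ^ (a₀ + 11))) (2 / (PW z : ℝ) ^ (a₀ + 8))
    (fun i n m => SP z ((a i).natAbs * X) ((a i).natAbs * dst n m)) (fun n m => SP z X (dst n m)) E (PW_sqf z) hWXn (fun i => (ha i).1) (by positivity) (by positivity) (by positivity)
    hH0 (by positivity) (fun i n m => hSP0 _ _) (fun n m => (hSP0 _ _).le)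
    (fun i n hn m hm hnm => spc z X _ _ (by omega) (hgi i) (ha i).2 (dst_pos hnm) (dst_lt hn hm) hzX)
    (by
      intro i n hn m hm hnm hnE
      obtain ⟨hfl, -⟩ := (red X (a i) (ha i).1).1 n hn
      obtain ⟨hfl', -⟩ := (red X (a i) (ha i).1).1 m hm
      obtain ⟨s1, s2, s3, s4, s5, -⟩ := hscale _ (hgi i) (ha i).2
      have hd := (red X (a i) (ha i).1).2.1 n hn m hm
      have hne : fl X (a i) n ≠ fl X (a i) m := by
        intro h
        rw [h] at hd
        have h5 : dst (fl X (a i) m) (fl X (a i) m) = 0 := by unfold dst; omega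
        rw [h5] at hd
        have h6 := dst_pos hnm
        have h7 := hgi i
        have h8 : 0 < (a i).natAbs * dst n m := Nat.mul_pos (by omega) (by omega)
        omega
      have hnE' : (fl X (a i) n, fl X (a i) m) ∉ Eg (a i).natAbs := by
        intro h
        apply hnE
        rw [hE, mem_filter, mem_product]
        exact ⟨⟨hn, hm⟩, i, h⟩
      have h5 := (hEg _ (hgi i) (ha i).2).2 (fl X (a i) n) hfl (fl X (a i) m) hfl' hne hnE'
      rw [hd] at h5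
      have hB := ((red X (a i) (ha i).1).2.2 (PW z)).2.2.2 n hn m hm
      rw [hum, card_Us red (ha i).1 hn hm]
      have h6 := sum_Us (W := PW z) red (ha i).1 hn hm (fun β => (B2 ((a i).natAbs * X) (fl X (a i) n) (fl X (a i) m) β - vv (PW z) ^ 2 * SP z ((a i).natAbs * X) ((a i).natAbs * dst n m)) ^ 2)
      rw [sum_congr rfl fun β _ => by rw [(hB β).1], h6]
      refine h5.trans ?_
      have h8 := (hSP0 ((a i).natAbs * X) ((a i).natAbs * dst n m)).le
      have h7 : 1 / Real.log (((a i).natAbs * X : ℕ) : ℝ) ^ (2 * (a₀ + 11)) ≤ 1 / L ^ (2 * (a₀ + 11)) :=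
        one_div_le_one_div_of_le (pow_pos hL0 _) (pow_le_pow_left₀ hL0.le s1 _)
      have h9 : 0 ≤ 1 / Real.log (((a i).natAbs * X : ℕ) : ℝ) ^ (2 * (a₀ + 11)) :=
        one_div_nonneg.2 (pow_nonneg (hL0.le.trans s1) _)
      exact mul_le_mul_of_nonneg_right (pow_le_pow_left₀ (mul_nonneg (mul_nonneg h9 (sq_nonneg _)) h8)
        (mul_le_mul_of_nonneg_right (mul_le_mul_of_nonneg_right h7 (sq_nonneg _)) h8) 2) (Nat.cast_nonneg _))
    (by
      intro i n hn m hm β hβ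
      obtain ⟨hfl, -⟩ := (red X (a i) (ha i).1).1 n hn
      obtain ⟨hfl', -⟩ := (red X (a i) (ha i).1).1 m hm
      obtain ⟨s1, s2, s3, s4, s5, -⟩ := hscale _ (hgi i) (ha i).2
      have hB := ((red X (a i) (ha i).1).2.2 (PW z)).2.2.2 n hn m hm β
      rw [hB.1]
      apply B2_zero (hWXn.trans s5) hfl hfl'
      intro h
      exact hβ (hB.2.1 h))
    (by
      intro i n hn m hm hnm β
      obtain ⟨hfl, -⟩ := (red X (a i) (ha i).1).1 n hn
      obtain ⟨hfl', -⟩ := (red X (a i) (ha i).1).1 m hm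
      obtain ⟨s1, s2, s3, s4, s5, -⟩ := hscale _ (hgi i) (ha i).2
      have hd := (red X (a i) (ha i).1).2.1 n hn m hm
      have hne : fl X (a i) n ≠ fl X (a i) m := by
        intro h
        rw [h] at hd
        have h5 : dst (fl X (a i) m) (fl X (a i) m) = 0 := by unfold dst; omega
        rw [h5] at hd
        have h6 := dst_pos hnm
        have h8 : 0 < (a i).natAbs * dst n m := Nat.mul_pos (hgi i) (by omega)
        omega
      have hB := ((red X (a i) (ha i).1).2.2 (PW z)).2.2.2 n hn m hm β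
      rw [hB.1]
      have s5r : (X : ℝ) ≤ (((a i).natAbs * X : ℕ) : ℝ) := by exact_mod_cast s5
      have h6 := B2_le hCs (hSP0 _ _).le (by linarith) (hsv z ((a i).natAbs * X) (by omega) (by omega) (hW20.trans s5r) _ hfl _ hfl' hne (β - (lo X (a i) : ZMod (PW z))))
      rw [hd] at h6
      exact h6)
    (by
      intro i n hn β
      obtain ⟨hfl, -⟩ := (red X (a i) (ha i).1).1 n hn
      obtain ⟨s1, s2, s3, s4, s5, -⟩ := hscale _ (hgi i) (ha i).2
      have hB := ((red X (a i) (ha i).1).2.2 (PW z)).2.2.2 n hn n hn β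
      rw [hB.1]
      refine (B2_diag (by omega) hfl _).trans ?_
      have h5 : Real.log (((a i).natAbs * X : ℕ) : ℝ) ^ 2 ≤ (2 * L) ^ 2 := by
        have : 0 ≤ Real.log (((a i).natAbs * X : ℕ) : ℝ) := by linarith
        gcongr
      nlinarith)
    (by
      intro n hn
      rw [mem_Ioc] at hn
      exact wt_le hX3 (by omega))
    hHSS hesum
  have hnum := num_part (a₀ := a₀) hη'0 hη'1 hM1 (by linarith) (by positivity : (0:ℝ) ≤ 2 * Cs) ha₀ hCc (by linarith) (by linarith) pb (hz₁ z hz1)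
    (hpc z (by omega)).2 hX hz hzL hK hH0 hH
  have hcard : (0 : ℝ) ≤ ((AdW (um (PW z) a)).card : ℝ) := Nat.cast_nonneg _
  refine (split_sqS a).trans ?_
  have := mul_le_mul_of_nonneg_right hnum hcard
  have hηη : η' * ((AdW (um (PW z) a)).card : ℝ) ≤ η * ((AdW (um (PW z) a)).card : ℝ) := by
    exact mul_le_mul_of_nonneg_right (min_le_left _ _) hcard
  refine le_trans ?_ hηη
  refine le_trans ?_ this
  have e : ∀ u v w : ℝ, (u - 2 * v + 1) * w = u * w - 2 * (v * w) + w := by intro u v w; ring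
  rw [e]
  gcongr

end Pool.Agent.Q145.LS
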