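import Pool.Agent.Q145.SZ.Stm2

/-!
# Project LS (helper145): long systems of linear forms at primes. Part 1: definitions, moments

For slopes `a_1, ..., a_K` (nonzero integers, `|a_i| ≤ z`) and constants `s_i` in an interval `bx X a_i` of length `|a_i| X`, `cntS X a s` is the
number of primes `X < n ≤ 2X` with `a_i n + s_i` prime for all `i` (`n` itself is prime). The project proves the Hardy-Littlewood formula
for almost all admissible `s`, for `K` up to `c log X / log log X` (`a_i > 0`: Dickson; `a_i = -1`: `s_i - n` prime, Goldbach).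

Every `S_...` below is a `Prop` with a complete proof in its docstring; most are adaptations of a proved statement of project SZ
(`Pool/Agent/Q145/SZ/Stm.lean`, files `Pool/Agent/*/SZ/*.lean`; the file to adapt is named). A job = a theorem `Pool.Agent.Q145.LS.t_... : S_...` in
its own file, which imports this file (and whatever library or SZ file it uses).
-/

set_option autoImplicit false

namespace Pool.Agent.Q145.LS

open Finset Filter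
open Pool.Agent.Q145.SZ

/-! ## Definitions -/

/-- the left end of the interval of the constants -/
def lo (X : ℕ) (a : ℤ) : ℕ := if 0 < a then 0 else a.natAbs * (3 * X + 1)

/-- the interval of the constants: `(0, a X]` for `a > 0` and `(|a| (3X+1), |a| (4X+1)]` for `a < 0` -/
def bx (X : ℕ) (a : ℤ) : Finset ℕ := Ioc (lo X a) (lo X a + a.natAbs * X)

/-- the value `a n + s` -/
def vl (a : ℤ) (n s : ℕ) : ℕ := (a * n + s).toNat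

/-- `a n + s = fl X a n + (s - lo X a)`; `fl X a n` is in `(|a| X, 2 |a| X]` for `n` in `(X, 2X]` -/
def fl (X : ℕ) (a : ℤ) (n : ℕ) : ℕ := if 0 < a then a.natAbs * n else a.natAbs * (3 * X + 1 - n)

/-- the number of classes `n` modulo `p` (prime) with `p | n ∏ (a_i n + s_i)` -/
def nuS {K : ℕ} (a : Fin K → ℤ) (s : Fin K → ℕ) (p : ℕ) : ℕ :=
  ((range p).filter fun n : ℕ => n = 0 ∨ ∃ i, (p : ℤ) ∣ a i * n + s i).card

/-- admissible systems -/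
def AdmS {K : ℕ} (a : Fin K → ℤ) (s : Fin K → ℕ) : Prop := ∀ p : ℕ, p.Prime → nuS a s p < p

/-- the factor of the singular series at `p` -/
noncomputable def locS {K : ℕ} (a : Fin K → ℤ) (s : Fin K → ℕ) (p : ℕ) : ℝ := (1 - (nuS a s p : ℝ) / p) / (1 - 1 / (p : ℝ)) ^ (K + 1)

/-- partial product of the singular series, primes `p ≤ w` -/
noncomputable def singPS {K : ℕ} (a : Fin K → ℤ) (s : Fin K → ℕ) (w : ℕ) : ℝ := ∏ p ∈ (Icc 1 w).filter Nat.Prime, locS a s p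

/-- the singular series -/
noncomputable def singS {K : ℕ} (a : Fin K → ℤ) (s : Fin K → ℕ) : ℝ := limUnder atTop (singPS a s)

/-- the number of primes `X < n ≤ 2X` with all `a_i n + s_i` prime -/
def cntS {K : ℕ} (X : ℕ) (a : Fin K → ℤ) (s : Fin K → ℕ) : ℕ :=
  ((Ioc X (2 * X)).filter fun n => n.Prime ∧ ∀ i, (vl (a i) n (s i)).Prime).card

open Classical in
/-- the admissible constants -/
noncomputable def ATS {K : ℕ} (X : ℕ) (a : Fin K → ℤ) : Finset (Fin K → ℕ) := (Fintype.piFinset fun i => bx X (a i)).filter (AdmS a)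

/-- the weighted count -/
noncomputable def wcS {K : ℕ} (X : ℕ) (a : Fin K → ℤ) (s : Fin K → ℕ) : ℝ := ∑ n ∈ Ioc X (2 * X), wt n * ∏ i, wt (vl (a i) n (s i))

section classes

variable {W : ℕ} [NeZero W]

open Classical in
/-- the units `x` with all `u_i x + b_i` units -/
noncomputable def GS {K : ℕ} (u b : Fin K → ZMod W) : Finset (ZMod W) := univ.filter fun x => IsUnit x ∧ ∀ i, IsUnit (u i * x + b i)

open Classical in
/-- the admissible constants modulo `W` -/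
noncomputable def AdW {K : ℕ} (u : Fin K → ZMod W) : Finset (Fin K → ZMod W) := univ.filter fun b => (GS u b).Nonempty

/-- the slopes modulo `W` -/
def um {K : ℕ} (W : ℕ) (a : Fin K → ℤ) : Fin K → ZMod W := fun i => (a i : ZMod W)

/-- the constants in a class -/
def bcl (X : ℕ) (a : ℤ) (β : ZMod W) : Finset ℕ := (bx X a).filter fun s => (s : ZMod W) = β

/-- the tuples of constants in given classes -/
def SbS {K : ℕ} (X : ℕ) (a : Fin K → ℤ) (b : Fin K → ZMod W) : Finset (Fin K → ℕ) := Fintype.piFinset fun i => bcl X (a i) (b i)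

/-- mean of `wt (a n + s)` over `s ≡ β` -/
noncomputable def A1s (X : ℕ) (a : ℤ) (n : ℕ) (β : ZMod W) : ℝ := (∑ s ∈ bcl X a β, wt (vl a n s)) / (bcl X a β).card

/-- mean of `wt (a n + s) wt (a m + s)` over `s ≡ β` -/
noncomputable def B2s (X : ℕ) (a : ℤ) (n m : ℕ) (β : ZMod W) : ℝ := (∑ s ∈ bcl X a β, wt (vl a n s) * wt (vl a m s)) / (bcl X a β).card

/-- the expected number of points for constants in the classes `b` -/
noncomputable def MbS {K : ℕ} (X : ℕ) (u b : Fin K → ZMod W) : ℝ := X * ((GS u b).card : ℝ) / W * vv W ^ (K + 1)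

open Classical in
/-- the weight of the first moment -/
noncomputable def w1s {K : ℕ} (u : Fin K → ZMod W) (n : ZMod W) (b : Fin K → ZMod W) : ℝ :=
  if n ∈ GS u b then ((GS u b).card : ℝ)⁻¹ else 0

open Classical in
/-- the weight of the second moment -/
noncomputable def w2s {K : ℕ} (u : Fin K → ZMod W) (n m : ZMod W) (b : Fin K → ZMod W) : ℝ :=
  if n ∈ GS u b ∧ m ∈ GS u b then (((GS u b).card : ℝ) ^ 2)⁻¹ else 0

open Classical in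
/-- the units -/
noncomputable def uni (W : ℕ) [NeZero W] : Finset (ZMod W) := univ.filter fun x => IsUnit x

end classes

/-! ## Layer A: the moments -/

/-- **LOCS** (one prime, from `Pool.Agent.Q111.SZ.t_LOC : SZ.S_LOC`). Proof. Let `S = GS u c ⊆ ZMod p`. Choose a tuple `c' : Fin k' → ZMod p` which
enumerates the negatives of the elements of the complement of `S` (e.g. `k' = (univ \ S).card`, `c' j = -((univ \ S).equivFin.symm j)`); then `SZ.Gs c' = S` (in a field unit = nonzero).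
If `v = 0`: `Us (v n) (v m) = {β : β ≠ 0}` (`p - 1 ≥ 1` elements) and `GS (cons v u) (cons β c) = S` for these `β`, so both sides are `N² g⁻⁴`-type: `N · N g⁻⁴ ≤ (1 + 18/p)(N g⁻²)²`.
If `v ≠ 0`: `β = v β'` is a bijection between `Us n m` (`β'`) and `Us (v n) (v m)` (`β`), and `GS (cons v u) (cons β c) = {x ∈ S : x + β' ≠ 0} = Gs (cons β' c')`;
so the claim is `S_LOC` for `c'`, `n`, `m`. -/
def S_LOCS : Prop := ∀ (p : ℕ) [Fact p.Prime] (k : ℕ) (u c : Fin k → ZMod p) (v n m : ZMod p), n ∈ GS u c → m ∈ GS u c →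
  ((Us (v * n) (v * m)).card : ℝ) * ∑ β ∈ Us (v * n) (v * m), (((GS (Fin.cons v u : Fin (k + 1) → ZMod p) (Fin.cons β c)).card : ℝ) ^ 4)⁻¹ ≤
    (1 + 18 / (p : ℝ)) * (∑ β ∈ Us (v * n) (v * m), (((GS (Fin.cons v u : Fin (k + 1) → ZMod p) (Fin.cons β c)).card : ℝ) ^ 2)⁻¹) ^ 2

/-- **CRTS** (from LOCS to squarefree moduli; adapt `Pool/Agent/Q111/SZ/CRT.lean`, the slopes are reduced like the constants and units go to pairs of units). -/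
def S_CRTS : Prop := ∀ (W : ℕ) [NeZero W], Squarefree W → ∀ (k : ℕ) (u c : Fin k → ZMod W) (v n m : ZMod W), n ∈ GS u c → m ∈ GS u c →
  ((Us (v * n) (v * m)).card : ℝ) * ∑ β ∈ Us (v * n) (v * m), (((GS (Fin.cons v u : Fin (k + 1) → ZMod W) (Fin.cons β c)).card : ℝ) ^ 4)⁻¹ ≤
    C18 W * (∑ β ∈ Us (v * n) (v * m), (((GS (Fin.cons v u : Fin (k + 1) → ZMod W) (Fin.cons β c)).card : ℝ) ^ 2)⁻¹) ^ 2

/-- **LAW2S** (replacement of the coordinates, from CRTS; adapt `Pool/Agent/Q58/SZ/Law2.lean`). The function `η i` depends on the coordinate now; with `T : Finset (Fin K)`,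
`V_T = ∑_b w2s u n m b ∏_{i ∈ T} (1 + η i (b i))`, `V_{insert j T} ≤ (1 + δ √C18) V_T`: write `b = Fin.insertNth j β c`, `u = Fin.insertNth j (u j) u'`; as sets
`GS u b = GS (cons (u j) u') (cons β c)`; if `n` or `m` is not in `GS u' c` the weight is `0` for every `β`; otherwise the weight is `0` unless `β ∈ Us (u j * n) (u j * m)`,
and Cauchy-Schwarz and CRTS give the claim as in SZ. -/
def S_LAW2S : Prop := S_CRTS → ∀ (W : ℕ) [NeZero W], Squarefree W → ∀ (K : ℕ) (u : Fin K → ZMod W) (n m : ZMod W) (η : Fin K → ZMod W → ℝ) (δ : ℝ), 0 ≤ δ →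
  (∀ i, ∀ β ∈ Us (u i * n) (u i * m), -1 ≤ η i β) → (∀ i, ∑ β ∈ Us (u i * n) (u i * m), η i β ^ 2 ≤ δ ^ 2 * (Us (u i * n) (u i * m)).card) →
  ∑ b : Fin K → ZMod W, w2s u n m b * ∏ i, (1 + η i (b i)) ≤ (1 + δ * √(C18 W)) ^ K * ∑ b : Fin K → ZMod W, w2s u n m b

/-- the conclusion of `S_LAW2S` -/
def S_LAW2S' : Prop := ∀ (W : ℕ) [NeZero W], Squarefree W → ∀ (K : ℕ) (u : Fin K → ZMod W) (n m : ZMod W) (η : Fin K → ZMod W → ℝ) (δ : ℝ), 0 ≤ δ →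
  (∀ i, ∀ β ∈ Us (u i * n) (u i * m), -1 ≤ η i β) → (∀ i, ∑ β ∈ Us (u i * n) (u i * m), η i β ^ 2 ≤ δ ^ 2 * (Us (u i * n) (u i * m)).card) →
  ∑ b : Fin K → ZMod W, w2s u n m b * ∏ i, (1 + η i (b i)) ≤ (1 + δ * √(C18 W)) ^ K * ∑ b : Fin K → ZMod W, w2s u n m b

/-- **LAW1S** (one coordinate with the first power, from CRTS with `m = n`). Proof. Write `K = k + 1`, `b = Fin.insertNth i β c`, `u = Fin.insertNth i (u i) u'` (if `K = 0` there is no `i`). If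
`n ∉ GS u' c` all terms vanish. Otherwise let `U = Us (u i n) (u i n)`, `w(β) = |GS (cons (u i) u') (cons β c)|⁻¹ > 0` on `U` (`n` is an element), `S_j = ∑_{U} w^j`, `N = |U|`, `C = C18 W`.
CRTS: `N S₄ ≤ C S₂²`. By Cauchy-Schwarz `S₂² ≤ S₁ S₃`, `S₃² ≤ S₂ S₄`, so `S₂⁴ ≤ S₁² S₃² ≤ S₁² S₂ S₄`, `S₂³ ≤ S₁² S₄ ≤ S₁² C S₂²/N`, i.e. `N S₂ ≤ C S₁²` (`S₂ > 0` if `U` is nonempty). Then
`∑_U w η ≤ (S₂)^{1/2} (∑_U η²)^{1/2} ≤ (C S₁²/N)^{1/2} (δ² N)^{1/2} = δ √C S₁`. Sum over `c`. (For `β ∉ U` the weight is `0`.) -/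
def S_LAW1S : Prop := S_CRTS → ∀ (W : ℕ) [NeZero W], Squarefree W → ∀ (K : ℕ) (u : Fin K → ZMod W) (n : ZMod W) (i : Fin K) (η : ZMod W → ℝ) (δ : ℝ), 0 ≤ δ →
  (∑ β ∈ Us (u i * n) (u i * n), η β ^ 2 ≤ δ ^ 2 * (Us (u i * n) (u i * n)).card) →
  ∑ b : Fin K → ZMod W, w1s u n b * η (b i) ≤ δ * √(C18 W) * ∑ b : Fin K → ZMod W, w1s u n b

/-- the conclusion of `S_LAW1S` -/
def S_LAW1S' : Prop := ∀ (W : ℕ) [NeZero W], Squarefree W → ∀ (K : ℕ) (u : Fin K → ZMod W) (n : ZMod W) (i : Fin K) (η : ZMod W → ℝ) (δ : ℝ), 0 ≤ δ →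
  (∑ β ∈ Us (u i * n) (u i * n), η β ^ 2 ≤ δ ^ 2 * (Us (u i * n) (u i * n)).card) →
  ∑ b : Fin K → ZMod W, w1s u n b * η (b i) ≤ δ * √(C18 W) * ∑ b : Fin K → ZMod W, w1s u n b

/-- **UNI** (invariance under units). Proof. For a unit `t` the bijection `b ↦ t b` satisfies `x ∈ GS u b ↔ t x ∈ GS u (t b)` (`u_i (t x) + t b_i = t (u_i x + b_i)`), so `|GS u (t b)| = |GS u b|` and
`w1s u (t n) (t b) = w1s u n b`, `w2s u (t n) (t m) (t b) = w2s u n m b`. Non-units are never in `GS u b`. So `∑_b w1s u n b` is the same for all units `n`, and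
`∑_n ∑_b w1s u n b = ∑_{b ∈ AdW u} 1 = |AdW u|`, `∑_{n, m} ∑_b w2s u n m b = |AdW u|`. -/
def S_UNI : Prop := ∀ (W : ℕ) [NeZero W] (K : ℕ) (u : Fin K → ZMod W),
  (∀ n : ZMod W, ∑ b : Fin K → ZMod W, w1s u n b = if n ∈ uni W then ((AdW u).card : ℝ) / Nat.totient W else 0) ∧
  (∀ (t : (ZMod W)ˣ) (n m : ZMod W), ∑ b : Fin K → ZMod W, w2s u (t * n) (t * m) b = ∑ b : Fin K → ZMod W, w2s u n m b) ∧
  (∀ n m : ZMod W, n ∉ uni W ∨ m ∉ uni W → ∑ b : Fin K → ZMod W, w2s u n m b = 0) ∧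
  (∑ n ∈ uni W, ∑ m ∈ uni W, ∑ b : Fin K → ZMod W, w2s u n m b = ((AdW u).card : ℝ)) ∧
  (∀ n m : ZMod W, ∑ b : Fin K → ZMod W, w2s u n m b ≤ ((AdW u).card : ℝ))

/-- **RED** (reduction to slope one). Elementary; `n, m` in `(X, 2X]`, `a ≠ 0`, `s ≥ 1`. In `ZMod W`: `fl X a n = a n + lo X a`. The bijection `s ↦ lo X a + s` from
`cls (|a| X) (β - lo X a)` to `bcl X a β` gives the formulas for `A1s`, `B2s`. -/
def S_RED : Prop := ∀ (X : ℕ) (a : ℤ), a ≠ 0 →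
  (∀ n ∈ Ioc X (2 * X), fl X a n ∈ Ioc (a.natAbs * X) (2 * (a.natAbs * X)) ∧ ∀ s, vl a n (lo X a + s) = fl X a n + s) ∧
  (∀ n ∈ Ioc X (2 * X), ∀ m ∈ Ioc X (2 * X), dst (fl X a n) (fl X a m) = a.natAbs * dst n m) ∧
  ∀ (W : ℕ) [NeZero W],
    (∀ n ∈ Ioc X (2 * X), ((fl X a n : ℕ) : ZMod W) = (a : ZMod W) * n + (lo X a : ZMod W)) ∧
    (∀ β : ZMod W, (bcl X a β).card = (cls (a.natAbs * X) (β - (lo X a : ZMod W))).card) ∧
    (∀ n ∈ Ioc X (2 * X), ∀ β : ZMod W, A1s X a n β = A1 (a.natAbs * X) (fl X a n) (β - (lo X a : ZMod W))) ∧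
    (∀ n ∈ Ioc X (2 * X), ∀ m ∈ Ioc X (2 * X), ∀ β : ZMod W,
      B2s X a n m β = B2 (a.natAbs * X) (fl X a n) (fl X a m) (β - (lo X a : ZMod W)) ∧
      (β - (lo X a : ZMod W) ∈ Us ((fl X a n : ℕ) : ZMod W) ((fl X a m : ℕ) : ZMod W) ↔ β ∈ Us ((a : ZMod W) * (n : ZMod W)) ((a : ZMod W) * (m : ZMod W))))

/-- **MOM1S** (first moment, from LAW1S', UNI; adapt `Pool/Agent/Q98/SZ/MOM1.lean`). Proof. `(∑_{s ∈ SbS} wcS X a s) / |SbS| = ∑_n wt n ∏_i A1s X (a i) n (b i)`. With `v = vv W > 0`, `∏ x_i ≥ 1 - ∑ |x_i - 1|`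
for `x_i ≥ 0`: for `b ∈ AdW` the quotient by `MbS = X |GS| v^{K+1} / W` is at least `(W / (X v)) ∑_n wt n · w1s u n b · (1 - ∑_i |A1s X (a i) n (b i) / v - 1|)` (drop the `n ∉ GS u b`). Sum over `b`:
for `n` with `wt n ≠ 0`, `n` is a prime `> X ≥ W`, a unit mod `W`, so `∑_b w1s u n b = |AdW|/φ(W)` (UNI), and LAW1S' with `η β = |A1s / v - 1|` gives `∑_b w1s u n b η (b i) ≤ δ √C18 |AdW|/φ(W)`. So the total is at least
`(W / (X v φ(W))) |AdW| (∑_n wt n) (1 - K δ √C18)`, `W / (v φ(W)) = 1`, and `(1 - ε₀) X ≤ ∑ wt n ≤ (1 + ε₀) X`: `≥ |AdW| ((1 - ε₀) - (1 + ε₀) K δ √C18)` (split the product: main part with the lower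
bound of `∑ wt n`, error part with the upper bound). (`AdW`, `b ∉ AdW` has all `w1s = 0`.) -/
def S_MOM1S : Prop := S_LAW1S' → S_UNI → ∀ (W : ℕ) [NeZero W] (X K : ℕ) (a : Fin K → ℤ) (ε₀ δ : ℝ), Squarefree W → W ≤ X → 0 ≤ ε₀ → 0 ≤ δ → (∀ i, a i ≠ 0) →
  |∑ n ∈ Ioc X (2 * X), wt n - X| ≤ ε₀ * X →
  (∀ i, ∀ n ∈ Ioc X (2 * X), ∑ β ∈ Us (um W a i * (n : ZMod W)) (um W a i * (n : ZMod W)), (A1s X (a i) n β - vv W) ^ 2 ≤ (δ * vv W) ^ 2 * (Us (um W a i * (n : ZMod W)) (um W a i * (n : ZMod W))).card) →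
  (1 - ε₀ - (1 + ε₀) * (K * (δ * √(C18 W)))) * (AdW (um W a)).card ≤
    ∑ b ∈ AdW (um W a), (∑ s ∈ SbS X a b, wcS X a s / MbS X (um W a) b) / (SbS X a b).card

open Classical in
/-- **MOM2S** (second moment, from LAW2S', UNI; adapt `Pool/Agent/Q58/SZ/Mom2.lean`). Proof. `(∑_{s ∈ SbS} (wcS X a s)²) / |SbS| = ∑_{n, m} wt n wt m ∏_i B2s X (a i) n m (b i)`; everything is `≥ 0`. By (H2') and as `wt n ≠ 0` only for
units, the product vanishes unless `n, m ∈ GS u b`. With `v = vv W`, `u = um W a`, dividing by `MbS²`: `∑_{b ∈ AdW} E_b (wcS/MbS)² = (W/(X v))² ∑_{n,m} wt n wt m ∑_b w2s u n m b ∏_i (B2s X (a i) n m (b i) / v²)`.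
(a) `n ≠ m`, `(n, m) ∉ E`: `η i β = B2s X (a i) n m β / (v² S i n m) - 1 ≥ -1`; (H2) and LAW2S' bound the inner sum by `∏_i S i n m · (1 + ε₂ √C18)^K ∑_b w2s u n m b ≤ T n m ^ K (1 + ε₂ √C18)^K ∑_b w2s`. (HS) with
`Q c d = ∑_b w2s u c d b` (UNI) gives at most `(W/(X v))² (X/φ(W))² (1 + H) (1 + ε₂ √C18)^K |AdW| = (1 + H)(1 + ε₂ √C18)^K |AdW|`. (b) `(n, m) ∈ E`, `n ≠ m`: (H3), `wt ≤ 2 log X`, `∑_b w2s ≤ |AdW|`, `v ≥ 1`:
`≤ (W/X)² (2 log X)² C₀^K |AdW| ∑_E T^K ≤ W² (2 log X)² C₀^K e₂ |AdW|`. (c) `n = m`: (H4): `≤ (W/X)² X (2 log X)² D₀^K |AdW|`. -/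
def S_MOM2S : Prop := S_LAW2S' → S_UNI → ∀ (W : ℕ) [NeZero W] (X K : ℕ) (a : Fin K → ℤ) (ε₂ C₀ D₀ H e₂ : ℝ) (S : Fin K → ℕ → ℕ → ℝ) (T : ℕ → ℕ → ℝ) (E : Finset (ℕ × ℕ)),
  Squarefree W → W ≤ X → (∀ i, a i ≠ 0) → 0 ≤ ε₂ → 0 ≤ C₀ → 0 ≤ D₀ → 0 ≤ H → 0 ≤ e₂ → (∀ i n m, 0 < S i n m) → (∀ n m, 0 ≤ T n m) →
  (∀ i, ∀ n ∈ Ioc X (2 * X), ∀ m ∈ Ioc X (2 * X), n ≠ m → S i n m ≤ T n m) →
  (∀ i, ∀ n ∈ Ioc X (2 * X), ∀ m ∈ Ioc X (2 * X), n ≠ m → (n, m) ∉ E →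
    ∑ β ∈ Us (um W a i * (n : ZMod W)) (um W a i * (m : ZMod W)), (B2s X (a i) n m β - vv W ^ 2 * S i n m) ^ 2 ≤
      (ε₂ * vv W ^ 2 * S i n m) ^ 2 * (Us (um W a i * (n : ZMod W)) (um W a i * (m : ZMod W))).card) →
  (∀ i, ∀ n ∈ Ioc X (2 * X), ∀ m ∈ Ioc X (2 * X), ∀ β : ZMod W, β ∉ Us (um W a i * (n : ZMod W)) (um W a i * (m : ZMod W)) → B2s X (a i) n m β = 0) →
  (∀ i, ∀ n ∈ Ioc X (2 * X), ∀ m ∈ Ioc X (2 * X), n ≠ m → ∀ β : ZMod W, B2s X (a i) n m β ≤ C₀ * vv W ^ 2 * S i n m) →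
  (∀ i, ∀ n ∈ Ioc X (2 * X), ∀ β : ZMod W, B2s X (a i) n n β ≤ D₀) →
  (∀ n ∈ Ioc X (2 * X), wt n ≤ 2 * Real.log X) →
  (∀ Q : ZMod W → ZMod W → ℝ, (∀ c d, 0 ≤ Q c d) → (∀ (t : (ZMod W)ˣ) (c d : ZMod W), Q (t * c) (t * d) = Q c d) →
    ∑ n ∈ Ioc X (2 * X), ∑ m ∈ (Ioc X (2 * X)).filter (fun m => m ≠ n), wt n * wt m * T n m ^ K * Q n m ≤
      ((X : ℝ) / Nat.totient W) ^ 2 * (1 + H) * ∑ c ∈ uni W, ∑ d ∈ uni W, Q c d) →
  (∑ q ∈ E.filter (fun q => q.1 ∈ Ioc X (2 * X) ∧ q.2 ∈ Ioc X (2 * X) ∧ q.1 ≠ q.2), T q.1 q.2 ^ K ≤ e₂ * (X : ℝ) ^ 2) →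
  ∑ b ∈ AdW (um W a), (∑ s ∈ SbS X a b, (wcS X a s / MbS X (um W a) b) ^ 2) / (SbS X a b).card ≤
    ((1 + ε₂ * √(C18 W)) ^ K * (1 + H) + (W : ℝ) ^ 2 * C₀ ^ K * e₂ * (2 * Real.log X) ^ 2 + (W : ℝ) ^ 2 * D₀ ^ K * (2 * Real.log X) ^ 2 / X) *
      (AdW (um W a)).card

/-! ## Layer B: primes in classes -/

/-- the primes of `(X, 2X]` in a class, with weight `log` -/
noncomputable def th {W : ℕ} [NeZero W] (X : ℕ) (c : ZMod W) : ℝ := ∑ n ∈ (Ioc X (2 * X)).filter (fun n : ℕ => (n : ZMod W) = c), wt n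

/-- **EQ2** (adapt `mean_sq` and `one_class` in `Pool/Agent/Q98/SZ/H1.lean`). (1) is `mean_sq` with `n = X` (its proof works for `X ≤ n`) and general `W`. (2) square `one_class`:
`(A1 - vv)² ≤ 8 (W/Z)² (th - Z/φ)² + 8 (W/Z)² vv²` for the `φ(W)` classes `β ∈ Us N N` (`N + β` a unit), sum with `mean_sq`: `≤ 8 (W/Z)² Z²/(φ L^A) + 8 (W/Z)² vv² φ = 8 vv² φ (1/L^A + (W/Z)²)` (`W = vv φ`);
`|Us N N| = φ(W)`. (3) from (1): `∑_n wt n - X = ∑_{c unit} (th X c - X/φ)` (a prime `> X ≥ W` is a unit mod `W`), Cauchy-Schwarz; take `W = 1`, or any `W`. -/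
def S_EQ2 : Prop := ∀ (A X F : ℕ), 3 ≤ X → MSq A X F → ∀ (W : ℕ) [NeZero W], W ≤ F → 2 * W ≤ X →
  (∑ c ∈ uni W, (th X c - (X : ℝ) / Nat.totient W) ^ 2 ≤ (X : ℝ) ^ 2 / (Nat.totient W * Real.log X ^ A)) ∧
  (∀ N ∈ Ioc X (2 * X), ∑ β ∈ Us (N : ZMod W) (N : ZMod W), (A1 X N β - vv W) ^ 2 ≤
    8 * (1 / Real.log X ^ A + ((W : ℝ) / X) ^ 2) * vv W ^ 2 * (Us (N : ZMod W) (N : ZMod W)).card) ∧
  (∑ n ∈ Ioc X (2 * X), wt n - X) ^ 2 ≤ (X : ℝ) ^ 2 / Real.log X ^ A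

/-- **YNG** (an averaged Young inequality on the group of units). Proof. `φ = φ(W) > 0`, `x = X/φ`, `th X c = x (1 + δ_c)`, `∑_{c} δ_c² ≤ ε² φ`. The row sums `R = ∑_{d ∈ uni} Q c d` do not depend on `c ∈ uni` (replace `c` by `t c` and `d` by `t d`), so
`φ R = Σ := ∑∑ Q`, and the same for the column sums. `∑∑ Q th th / x² = Σ + ∑_c δ_c R + ∑_d δ_d R' + ∑∑ Q δ_c δ_d`. `|∑ δ_c| R ≤ (φ ε² φ)^{1/2} R = ε Σ`, the same for `R'`, and `∑∑ Q δ_c δ_d ≤ ∑∑ Q (δ_c² + δ_d²)/2 ≤ ε² φ R = ε² Σ ≤ ε Σ`. -/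
def S_YNG : Prop := ∀ (W : ℕ) [NeZero W] (X : ℕ) (ε : ℝ) (Q : ZMod W → ZMod W → ℝ), 1 ≤ X → 0 ≤ ε → ε ≤ 1 → (∀ c d, 0 ≤ Q c d) →
  (∀ (t : (ZMod W)ˣ) (c d : ZMod W), Q (t * c) (t * d) = Q c d) →
  (∑ c ∈ uni W, (th X c - (X : ℝ) / Nat.totient W) ^ 2 ≤ ε ^ 2 * (X : ℝ) ^ 2 / Nat.totient W) →
  ∑ c ∈ uni W, ∑ d ∈ uni W, Q c d * (th X c * th X d) ≤ ((X : ℝ) / Nat.totient W) ^ 2 * (1 + 3 * ε) * ∑ c ∈ uni W, ∑ d ∈ uni W, Q c d

/-- **BT** (Brun-Titchmarsh; from `Pool.Agent.Helper602.MK.BTLib.brun_titchmarsh` (`Pool/Agent/Helper602/MK/J3.lean`) or `Pool.Agent.H692R2.USS.t1_brun_titchmarsh`). Proof. The `n ∈ (X, 2X]`, `n ≡ r mod q` are `a + k q`, `k < N`, `N = X / q + 2` with `a` the first of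
them; `log N ≥ log (X / q) ≥ (log X) / 2`, `N ≤ 2 X/q + 2 ≤ 3 X / q`-ish; `wt n ≤ log (2X) ≤ 2 log X`. -/
def S_BT : Prop := ∃ (C : ℝ) (X₀ : ℕ), 0 < C ∧ ∀ X q : ℕ, X₀ ≤ X → 1 ≤ q → q ^ 2 ≤ X → ∀ r : ℕ,
  ∑ n ∈ (Ioc X (2 * X)).filter (fun n : ℕ => n ≡ r [MOD q]), wt n ≤ C * X / Nat.totient q

/-- **SQ2**: `∑_{p > z} 1 / p² ≤ C / (z log z)` and `∑_{p > z} 1 / p^{3/2} ≤ C / √z` (adapt `Pool/Agent/Q111/SZ/SQ3.lean`; the second sum is over all integers if you like). -/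
def S_SQ2 : Prop := ∃ C : ℝ, 0 < C ∧ ∀ z w : ℕ, 2 ≤ z →
  ∑ p ∈ (Ioc z w).filter Nat.Prime, 1 / (p : ℝ) ^ 2 ≤ C / ((z : ℝ) * Real.log z) ∧
  ∑ p ∈ (Ioc z w).filter Nat.Prime, 1 / ((p : ℝ) * √p) ≤ C / √z

/-- **HSB** (from BT, SQ2). Write `P` for the primes `z < p ≤ X`, `W = PW z`, `L = log X`, `φ = φ(W)`. By `SP_pow` (`Pool/Agent/Q261/SZ/HSa.lean`): `SP z X h ^ K - 1 ≤ ∑_{E ⊆ P, E ≠ ∅, e | h} g(E)`, `e = ∏ E`, `g(E) = ∏_{p ∈ E} gg K p` (as `∏ cc ≤ 1`).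
For `n ≠ m` in `(X, 2X]`, `e | dst n m` implies `e < X`. Put `E₀ = X^{1/4}`. (i) `e ≤ E₀`: for a prime `n ≡ c`, the `m ≡ d` mod `W`, `m ≡ n` mod `e` form one class mod `W e` (`W` and `e` are coprime), `(W e)² ≤ X`: BT gives `≤ C X / (φ φ(e))`, and BT for the sum
over `n`: total `≤ C² (X/φ)² g(E) / φ(e)`. Sum over nonempty `E`: `∑ g(E)/φ(e) ≤ ∏_P (1 + gg K p/(p-1)) - 1 ≤ exp(∑_P 8K/p²) - 1 ≤ 16 K C'/(z log z) ≤ C''/log z` (`gg K p ≤ 4 K/p` as `8K ≤ z < p`: see `gg_le` in `Pool/Agent/Q261/SZ/HS.lean`; `z` large).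
(ii) `e > E₀`: `wt ≤ 2 L`; at most `X/W + 1 ≤ 2X/W` values of `n ≡ c` and `X/(W e) + 1` values of `m` (`cnt_le` in `HSa.lean`): `≤ 8 L² (X/W) (X/(W e) + 1) g(E)`. `∑_{e > E₀} g(E)/e ≤ E₀^{-1/2} ∑ g(E)/√e ≤ E₀^{-1/2} exp(∑_P 4K/p^{3/2}) ≤ E₀^{-1/2} exp(C z)` and
`∑ g(E) ≤ ∏ (1 + gg K p) ≤ (log X)^{14 K}` (`S_HS`, file `HS.lean`). Total `≤ 8 L² (X/W)² (X^{-1/8} e^{C z} + (W/X) L^{14K})`, and `(X/W)² ≤ (X/φ)²`; with `exp (M z) L^{16K+24} ≤ X` for a large constant `M` both terms are `≤ (1/log z)`-small.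
(`PW z ≤ 4^z` is `Pool.Agent.Q111.SZ.t_PWB`.) -/
def S_HSB : Prop := S_BT → S_SQ2 → ∃ (C : ℝ) (z₀ : ℕ), 1 ≤ C ∧ ∀ (z X K : ℕ), z₀ ≤ z → 8 * K ≤ z → Real.exp (C * z) * Real.log X ^ (16 * K + 24) ≤ X →
  ∀ c ∈ uni (PW z), ∀ d ∈ uni (PW z),
  ∑ n ∈ (Ioc X (2 * X)).filter (fun n : ℕ => (n : ZMod (PW z)) = c),
    ∑ m ∈ (Ioc X (2 * X)).filter (fun m : ℕ => (m : ZMod (PW z)) = d ∧ m ≠ n), wt n * wt m * SP z X (dst n m) ^ K ≤
      th X c * th X d + ((X : ℝ) / Nat.totient (PW z)) ^ 2 * (C / Real.log z)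

/-- conclusion of `S_HSB` -/
def S_HSB' : Prop := ∃ (C : ℝ) (z₀ : ℕ), 1 ≤ C ∧ ∀ (z X K : ℕ), z₀ ≤ z → 8 * K ≤ z → Real.exp (C * z) * Real.log X ^ (16 * K + 24) ≤ X →
  ∀ c ∈ uni (PW z), ∀ d ∈ uni (PW z),
  ∑ n ∈ (Ioc X (2 * X)).filter (fun n : ℕ => (n : ZMod (PW z)) = c),
    ∑ m ∈ (Ioc X (2 * X)).filter (fun m : ℕ => (m : ZMod (PW z)) = d ∧ m ≠ n), wt n * wt m * SP z X (dst n m) ^ K ≤
      th X c * th X d + ((X : ℝ) / Nat.totient (PW z)) ^ 2 * (C / Real.log z)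

/-- **HSS** (from HSB', YNG). Proof. Split the sum over `n, m` by classes `c`, `d`; if `c` or `d` is not a unit the terms vanish (`wt n ≠ 0` only for primes `n > X ≥ W`, units mod `W`); HSB' and then YNG:
`≤ ∑_{c,d} Q c d (th X c th X d) + (X/φ)² (C/log z) ∑∑ Q ≤ (X/φ)² (1 + 3ε + C/log z) ∑∑ Q`. -/
def S_HSS : Prop := S_HSB' → S_YNG → ∃ (C : ℝ) (z₀ : ℕ), 1 ≤ C ∧ ∀ (z X K : ℕ) (ε : ℝ), z₀ ≤ z → 8 * K ≤ z → Real.exp (C * z) * Real.log X ^ (16 * K + 24) ≤ X → PW z ≤ X → 0 ≤ ε → ε ≤ 1 →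
  (∑ c ∈ uni (PW z), (th X c - (X : ℝ) / Nat.totient (PW z)) ^ 2 ≤ ε ^ 2 * (X : ℝ) ^ 2 / Nat.totient (PW z)) →
  ∀ Q : ZMod (PW z) → ZMod (PW z) → ℝ, (∀ c d, 0 ≤ Q c d) → (∀ (t : (ZMod (PW z))ˣ) (c d : ZMod (PW z)), Q (t * c) (t * d) = Q c d) →
  ∑ n ∈ Ioc X (2 * X), ∑ m ∈ (Ioc X (2 * X)).filter (fun m => m ≠ n), wt n * wt m * SP z X (dst n m) ^ K * Q n m ≤
    ((X : ℝ) / Nat.totient (PW z)) ^ 2 * (1 + (C / Real.log z + 3 * ε)) * ∑ c ∈ uni (PW z), ∑ d ∈ uni (PW z), Q c d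

/-! ## Layer C: singular series -/

/-- **MBSS** (the mean value and the singular series; adapt `Pool/Agent/Q58/SZ/Mbs.lean`). Proof. `|GS (um W a) b| = ∏_{p ≤ z} |{x mod p : x ≠ 0, a_i x + s_i ≠ 0 for all i}| = ∏ (p - nuS a s p)`. So `MbS = X singPS a s z`; and `GS` is nonempty iff
`nuS a s p < p` for all primes `p ≤ z`; for a prime `p > z ≥ K + 1` no `a_i` is divisible by `p` (`0 < |a_i| ≤ z`), so each form has one root and `nuS a s p ≤ K + 1 ≤ z < p`. -/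
def S_MBSS : Prop := ∀ (z X K : ℕ) (a : Fin K → ℤ) (s : Fin K → ℕ),
  MbS X (um (PW z) a) (fun i => (s i : ZMod (PW z))) = X * singPS a s z ∧
  (K + 1 ≤ z → (∀ i, a i ≠ 0 ∧ (a i).natAbs ≤ z) → (AdmS a s ↔ (GS (um (PW z) a) (fun i => (s i : ZMod (PW z)))).Nonempty))

/-- **LMS** (from `Pool.Agent.Q98.SZ.t_LM` with `K + 1` in place of `K`). Proof. `p` does not divide any `a_i`. For `s ∈ (range p)^K` let `ρ_i ∈ range p` be the root of `a_i x + s_i` modulo `p`; `s ↦ ρ` is a bijection of `(range p)^K` and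
`nuS a s p = nu (cons 0 ρ) p`, `locS a s p = loc (cons 0 ρ) p`. `nu` (hence `loc`) is invariant under translations of all coordinates modulo `p`, so for `F` any function
`∑_{ρ ∈ (range p)^K} F (loc (cons 0 ρ) p) = (1/p) ∑_{t ∈ (range p)^{K+1}} F (loc t p)`. -/
def S_LMS : Prop := SZ.S_LM → ∀ (p K : ℕ) (a : Fin K → ℤ), p.Prime → 8 * (K + 1) ≤ p → (∀ i, ¬ (p : ℤ) ∣ a i) →
  ∑ s ∈ Fintype.piFinset (fun _ : Fin K => range p), (locS a s p - 1) = 0 ∧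
  ∑ s ∈ Fintype.piFinset (fun _ : Fin K => range p), (locS a s p - 1) ^ 2 ≤ 8 * ((K : ℝ) + 1) ^ 2 / (p : ℝ) ^ 3 * (p : ℝ) ^ K

/-- conclusion of `S_LMS` -/
def S_LMS' : Prop := ∀ (p K : ℕ) (a : Fin K → ℤ), p.Prime → 8 * (K + 1) ≤ p → (∀ i, ¬ (p : ℤ) ∣ a i) →
  ∑ s ∈ Fintype.piFinset (fun _ : Fin K => range p), (locS a s p - 1) = 0 ∧
  ∑ s ∈ Fintype.piFinset (fun _ : Fin K => range p), (locS a s p - 1) ^ 2 ≤ 8 * ((K : ℝ) + 1) ^ 2 / (p : ℝ) ^ 3 * (p : ℝ) ^ K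

/-- **VARS** (from LMS', SQ3; adapt `Pool/Agent/Q261/SZ/VAR.lean`, `Den.lean`, `Loc.lean`). The only change: `s_i` runs over the `s` in a class mod `PW z` in an interval `(lo, lo + |a_i| X]` of length `≥ X`, so the law of `(s mod q)` on `(ℤ/q)^K`, `(q, W) = 1`,
`q ≤ Y²`, has density between `(1 - 4qW/X)^K` and `(1 + 4qW/X)^K` with respect to the uniform law; the functions `locS a s p - 1`, `z < p ≤ Y`, have mean `0` and mean square `≤ 8 (K+1)²/p³` (LMS': `p` does not divide `a_i`, as `0 < |a_i| ≤ z < p`), and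
for `p ≠ p'` they are independent for the uniform law mod `p p'`. -/
def S_VARS : Prop := S_LMS' → SZ.S_SQ3 → ∃ C : ℝ, 0 < C ∧ ∀ (z X Y K : ℕ) (a : Fin K → ℤ), 2 ≤ z → 8 * (K + 1) ≤ z → (∀ i, a i ≠ 0 ∧ (a i).natAbs ≤ z) → 16 * (K + 1) * (Y : ℝ) ^ 4 * PW z ≤ X →
  ∀ b : Fin K → ZMod (PW z),
  ∑ s ∈ SbS X a b, (∑ p ∈ (Ioc z Y).filter Nat.Prime, (locS a s p - 1)) ^ 2 ≤ (C / Real.log z + 16 * (K + 1) * (Y : ℝ) ^ 4 * PW z / X) * (SbS X a b).card ∧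
  ∑ s ∈ SbS X a b, ∑ p ∈ (Ioc z Y).filter Nat.Prime, (locS a s p - 1) ^ 2 ≤ (C / Real.log z + 16 * (K + 1) * (Y : ℝ) ^ 4 * PW z / X) * (SbS X a b).card

/-- the forms `x`, `a_i x + s_i` are pairwise not proportional -/
def ND {K : ℕ} (a : Fin K → ℤ) (s : Fin K → ℕ) : Prop := ∀ i j, i ≠ j → a i * s j ≠ a j * s i

/-- **FARS** (the primes `p > Y`; adapt `Pool/Agent/Q261/SZ/FAR.lean`). Proof. For `p > Y ≥ 8 (K+1)²` no `a_i` is divisible by `p` (`0 < |a_i| ≤ Y`); `κ_p = K + 1 - nuS a s p ≤ ∑_{i<j} [p | a_i s_j - a_j s_i] + ∑_i [p | s_i]` (two roots coincide, or a root is `0`; `nuS` is the number of different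
roots). `|log locS a s p| ≤ 2 κ_p/p + 2 (K+1)²/p²`. Only finitely many `κ_p > 0`, since the integers `a_i s_j - a_j s_i`, `s_i` are nonzero, at most `2M²` in absolute value, so at most `log (2M²)/log 2 ≤ 5 log M` primes divide each of them (`M ≥ 3`). So `singPS` converges and
`|log (singS / singPS Y)| ≤ ∑_{p > Y} (2κ_p/p + 2(K+1)²/p²) ≤ (2/Y) (K+1)² · 5 log M + 4 (K+1)²/Y ≤ 32 (K+1)² log M / Y`. -/
def S_FARS : Prop := ∀ (M Y K : ℕ) (a : Fin K → ℤ) (s : Fin K → ℕ), 3 ≤ M → 8 * (K + 1) ^ 2 ≤ Y → 32 * ((K : ℝ) + 1) ^ 2 * Real.log M ≤ Y →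
  (∀ i, a i ≠ 0 ∧ (a i).natAbs ≤ Y ∧ (a i).natAbs ≤ M ∧ 1 ≤ s i ∧ s i ≤ M) → ND a s → (∀ p : ℕ, p.Prime → p ≤ Y → nuS a s p < p) →
  0 < singPS a s Y ∧ 0 < singS a s ∧ Tendsto (singPS a s) atTop (nhds (singS a s)) ∧ |Real.log (singS a s / singPS a s Y)| ≤ 32 * ((K : ℝ) + 1) ^ 2 * Real.log M / Y

/-- **TAILS** (from VARS, FARS; adapt `Pool/Agent/Q261/SZ/TAIL.lean`). `Y = ⌈(log X)^4⌉`, `M = X^2` (the constants are at most `|a_i| (4X + 1) ≤ X²`). The `s ∈ SbS X a b` violating `ND` have proportion at most `K² · 2W/X` (given `s_i` there is at most one `s_j`; each class of `s_j`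
has at least `X/W - 1` elements). The rest as in SZ with `K + 1` in place of `K`. -/
def S_TAILS : Prop := S_VARS → S_LMS' → SZ.S_SQ3 → S_FARS → ∀ ε : ℝ, 0 < ε → ∃ (C : ℝ) (X₀ z₀ : ℕ), 0 < C ∧ ∀ (z X K : ℕ) (a : Fin K → ℤ), X₀ ≤ X → z₀ ≤ z → 8 * (K + 1) ≤ z →
  (∀ i, a i ≠ 0 ∧ (a i).natAbs ≤ z) → (z : ℝ) ≤ Real.log X → (PW z : ℝ) ^ 2 ≤ X → ∀ b : Fin K → ZMod (PW z),
  (((SbS X a b).filter fun s => ¬ (|singS a s - singPS a s z| ≤ ε * singPS a s z)).card : ℝ) ≤ C / Real.log z * (SbS X a b).card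

open Classical in
/-- **TRANSS** (from the classes to all admissible constants; adapt `Pool/Agent/Q58/SZ/Trans.lean`). `ATS X a` is the disjoint union of the `SbS X a b`, `b ∈ AdW (um (PW z) a)` (MBSS), and `∏ (|a_i| X/W - 1) ≤ |SbS X a b| ≤ ∏ (|a_i| X/W + 1)` with quotient `≤ 2` as `8 (K + 1) W ≤ X`. -/
def S_TRANSS : Prop := S_MBSS → ∀ (z X K : ℕ) (a : Fin K → ℤ) (E : (Fin K → ℕ) → Prop) (η : ℝ), K + 1 ≤ z → (∀ i, a i ≠ 0 ∧ (a i).natAbs ≤ z) → 8 * (K + 1) * PW z ≤ X →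
  ∑ b ∈ AdW (um (PW z) a), (((SbS X a b).filter fun s => E s).card : ℝ) / (SbS X a b).card ≤ η * (AdW (um (PW z) a)).card →
  (((ATS X a).filter fun s => E s).card : ℝ) ≤ 2 * η * (ATS X a).card

/-- **SPC**: pair singular series at two scales. Proof. For `z < p ≤ A X`, `1 ≤ A ≤ z`: `p ∤ A`, so `p | A h ↔ p | h`; the factors at `X < p ≤ A X` are `1 - 1/(p-1)²` (`0 < h < X`), between `0` and `1`. Lower bound: `SZ.t_US` (third part). -/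
def S_SPC : Prop := ∀ z X A h : ℕ, 3 ≤ z → 1 ≤ A → A ≤ z → 1 ≤ h → h < X → z ≤ X → SP z (A * X) (A * h) ≤ SP z X h

/-- **WCB**: the weighted count and the count. Proof: `vl (a i) n (s i) = fl X (a i) n + (s i - lo)` is in `(|a_i| X, 3 |a_i| X]` (RED), `n` in `(X, 2X]`; compare with `wc_bounds` in `Pool/Agent/Q145/SZ/SufE.lean`. -/
def S_WCB : Prop := ∀ (X K : ℕ) (a : Fin K → ℤ) (s : Fin K → ℕ), 3 ≤ X → (∀ i, a i ≠ 0) → (∀ i, s i ∈ bx X (a i)) →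
  (cntS X a s : ℝ) * (Real.log X * ∏ i, Real.log ((a i).natAbs * X)) ≤ wcS X a s ∧
  wcS X a s ≤ cntS X a s * (Real.log (3 * X) * ∏ i, Real.log (3 * ((a i).natAbs * X)))

end Pool.Agent.Q145.LS
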