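import Pool.Agent.Q145.SZ.All
import Pool.Agent.Q145.LS.Var2
import Pool.Agent.Q145.LS.Fin
import Pool.Agent.Q145.LS.Locs
import Pool.Agent.Q211.LS.Crts
import Pool.Agent.Q211.LS.Law
import Pool.Agent.Q211.LS.Hss
import Pool.Agent.Q211.LS.Lms
import Pool.Agent.Q211.LS.Transs
import Pool.Agent.Q162.LS.UNI
import Pool.Agent.Q162.LS.RED
import Pool.Agent.Q162.LS.EQ2
import Pool.Agent.Q162.LS.YNG
import Pool.Agent.Q162.LS.BT
import Pool.Agent.Q162.LS.WCB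
import Pool.Agent.Q213.LS.Mom2
import Pool.Agent.Q213.LS.VarS
import Pool.Agent.Q261.LS.FARS
import Pool.Agent.Q261.LS.TAILS
import Pool.Agent.Q145.LS.MBSS
import Pool.Agent.Q145.LS.MOM1S
import Pool.Agent.Q18.LS.HSB
import Pool.Agent.Q145.LS.Sq2
import Pool.Agent.Q145.LS.Spc

/-!
# Project LS: assembly of all parts
-/

set_option autoImplicit false

namespace Pool.Agent.Q145.LS

open Finset Filter
open Pool.Agent.Q145.SZ

theorem crts : S_CRTS := Pool.Agent.Q211.LS.t_CRTS t_LOCS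

theorem law1s' : S_LAW1S' := Pool.Agent.Q211.LS.Law.t_LAW1S crts

theorem law2s' : S_LAW2S' := Pool.Agent.Q211.LS.Law.t_LAW2S crts

theorem hsb' : S_HSB' := Pool.Agent.Q18.LS.t_HSB t_BT t_SQ2

theorem hss' : S_HSS' := Pool.Agent.Q211.LS.Hss.t_HSS hsb' t_YNG

theorem lms' : S_LMS' := Pool.Agent.Q211.LS.Lms.t_LMS Pool.Agent.Q98.SZ.t_LM

theorem tails' : S_TAILS' := t_TAILS t_VARS lms' Pool.Agent.Q111.SZ.t_SQ3 t_FARS

theorem h2' : S_H2' := t_H2 t_ENG t_MAJ t_GS t_MODB t_MIN t_MODA t_MODC t_MODE t_US Pool.Agent.Q111.SZ.t_PWB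

theorem sufS : SUFP PS := by
  obtain ⟨a₀, hvb⟩ := var_boundS law1s' law2s' t_UNI t_RED t_MOM1S t_MOM2S hs' hss' t_SIEVE t_SPC Pool.Agent.Q111.SZ.t_PWB t_PWC t_US
  obtain ⟨B, C₀, hB, hC₀, han⟩ := anL ms' t_EQ2 h2' Pool.Agent.Q111.SZ.t_PWB (2 * (a₀ + 11))
  refine ⟨B, C₀, hB, hC₀, fun ε hε => ?_⟩
  obtain ⟨M, hM, hh⟩ := hls_bound hvb t_MBSS Pool.Agent.Q211.LS.Tr.t_TRANSS tails' t_WCB Pool.Agent.Q111.SZ.t_PWB ε hε
  refine ⟨M + C₀, by linarith, ?_⟩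
  intro z X ω T hl hz hzL hω hω4 hωL hT hTz hTL hZF K hK
  have hIN := han z X ω T (by linarith) hz hzL hω hω4 hωL hT hTz hTL hZF
  have hl0 : 0 < Real.log (Real.log X) := by linarith
  have hz0 : (0 : ℝ) ≤ z := by positivity
  refine hh z X K (by linarith) ?_ ?_ hK hIN
  · exact le_trans (by gcongr) hz
  · exact le_trans (by gcongr) hzL

theorem main1 (A ε : ℝ) (hε : 0 < ε) : ∀ᶠ X : ℕ in atTop, ∀ Q : ℕ, (Q : ℝ) ≤ A * Real.log (Real.log X) → PS X Q ε :=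
  case1 zr' Pool.Agent.Q111.SZ.t_PWB Pool.Agent.Q177.SZ.t_SIEG sufS A ε hε

theorem main2 : ∃ c : ℝ, 0 < c ∧ ∀ ε : ℝ, 0 < ε → ∃ᶠ X : ℕ in atTop, ∀ Q : ℕ, (Q : ℝ) ≤ c * (Real.log X / Real.log (Real.log X)) → PS X Q ε :=
  case2 Pool.Agent.Q111.SZ.t_PWB sufS good'

theorem main3 : ∃ c C : ℝ, 0 < c ∧ 0 < C ∧ ∀ ε : ℝ, 0 < ε → ∀ᶠ X : ℕ in atTop,
      (∀ (r : ℕ) [NeZero r], 1 < r → (r : ℝ) ≤ Real.exp (Real.log X / Real.log (Real.log X)) → ∀ χ : DirichletCharacter ℂ r, χ.IsPrimitive → χ ^ 2 = 1 →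
        ∀ β : ℝ, χ.LFunction β = 0 → β ≤ 1 - C * (Real.log (Real.log X) / Real.log X)) →
      ∀ Q : ℕ, (Q : ℝ) ≤ c * (Real.log X / Real.log (Real.log X)) → PS X Q ε :=
  dich zr' Pool.Agent.Q111.SZ.t_PWB sufS

/-- convergence of the singular series -/
theorem series_convS (K : ℕ) (a : Fin K → ℤ) (s : Fin K → ℕ) (ha : ∀ i, a i ≠ 0) (h1 : ∀ i, 1 ≤ s i) (hnd : ND a s) (hadm : AdmS a s) :
    Tendsto (singPS a s) atTop (nhds (singS a s)) ∧ 0 < singS a s := by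
  set M : ℕ := 3 + ∑ i, s i + ∑ i, (a i).natAbs with hM
  have hsX : ∀ i, s i ≤ M := fun i => by
    have : s i ≤ ∑ i, s i := Finset.single_le_sum (f := s) (fun _ _ => Nat.zero_le _) (mem_univ i)
    omega
  have haX : ∀ i, (a i).natAbs ≤ M := fun i => by
    have : (a i).natAbs ≤ ∑ i, (a i).natAbs := Finset.single_le_sum (f := fun i => (a i).natAbs) (fun _ _ => Nat.zero_le _) (mem_univ i)
    omega
  obtain ⟨Y, hY⟩ := exists_nat_ge (max (max (8 * ((K : ℝ) + 1) ^ 2) (M : ℝ)) (32 * ((K : ℝ) + 1) ^ 2 * Real.log (M : ℝ)))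
  have hYa : 8 * ((K : ℝ) + 1) ^ 2 ≤ (Y : ℝ) := (le_max_left _ _).trans ((le_max_left _ _).trans hY)
  have hYb : (M : ℝ) ≤ (Y : ℝ) := (le_max_right _ _).trans ((le_max_left _ _).trans hY)
  have hY3 : 32 * ((K : ℝ) + 1) ^ 2 * Real.log (M : ℝ) ≤ (Y : ℝ) := (le_max_right _ _).trans hY
  have hY1 : 8 * (K + 1) ^ 2 ≤ Y := by exact_mod_cast hYa
  have hY2 : M ≤ Y := by exact_mod_cast hYb
  obtain ⟨-, h2, h3, -⟩ := t_FARS M Y K a s (by omega) hY1 hY3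
    (fun i => ⟨ha i, (haX i).trans hY2, haX i, h1 i, hsX i⟩) hnd (fun p hp _ => hadm p hp)
  exact ⟨h3, h2⟩

end Pool.Agent.Q145.LS
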