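import Pool.Agent.Q145.LS.Fin

/-!
# Project LS: elementary translations for the final statements
-/

set_option autoImplicit false

namespace Pool.Agent.Q145.LS

open Finset Filter
open Pool.Agent.Q145.SZ

lemma bx_pos (X : ℕ) {a : ℕ} (ha : 1 ≤ a) : bx X (a : ℤ) = Icc 1 (a * X) := by
  unfold bx lo
  rw [if_pos (by exact_mod_cast ha)]
  ext n
  simp only [mem_Ioc, mem_Icc, Int.natAbs_natCast]
  omega

lemma bx_neg (X : ℕ) (a : ℕ) : bx X (-(a : ℤ)) = Ioc (a * (3 * X + 1)) (a * (4 * X + 1)) := by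
  unfold bx lo
  rw [if_neg (by simp)]
  simp only [Int.natAbs_neg, Int.natAbs_natCast]
  congr 1
  ring

lemma vl_pos (a n s : ℕ) : vl (a : ℤ) n s = a * n + s := by
  unfold vl
  have : (a : ℤ) * n + s = ((a * n + s : ℕ) : ℤ) := by push_cast; ring
  rw [this, Int.toNat_natCast]

lemma vl_neg (a n s : ℕ) : vl (-(a : ℤ)) n s = s - a * n := by
  unfold vl
  rcases le_total (a * n) s with h | h
  · have : -(a : ℤ) * n + s = ((s - a * n : ℕ) : ℤ) := by push_cast [Nat.cast_sub h]; ring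
    rw [this, Int.toNat_natCast]
  · rw [Nat.sub_eq_zero_of_le h]
    apply Int.toNat_eq_zero.2
    have : (s : ℤ) ≤ (a * n : ℕ) := by exact_mod_cast h
    push_cast at this
    linarith

lemma nuS_pos {K : ℕ} (a s : Fin K → ℕ) {p : ℕ} (hp : p.Prime) :
    nuS (fun i => (a i : ℤ)) s p = ((range p).filter fun n => p ∣ n * ∏ i, (a i * n + s i)).card := by
  unfold nuS
  congr 1
  refine filter_congr fun n hn => ?_
  rw [mem_range] at hn
  rw [hp.dvd_mul, hp.prime.dvd_finset_prod_iff]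
  have h1 : n = 0 ↔ p ∣ n := by
    constructor
    · rintro rfl; exact dvd_zero p
    · intro h; exact Nat.eq_zero_of_dvd_of_lt h hn
  rw [h1]
  apply or_congr Iff.rfl
  constructor
  · rintro ⟨i, hi⟩
    refine ⟨i, mem_univ i, ?_⟩
    have : (a i : ℤ) * n + s i = ((a i * n + s i : ℕ) : ℤ) := by push_cast; ring
    rw [this] at hi
    exact_mod_cast hi
  · rintro ⟨i, -, hi⟩
    refine ⟨i, ?_⟩
    have : (a i : ℤ) * n + s i = ((a i * n + s i : ℕ) : ℤ) := by push_cast; ring
    rw [this]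
    exact_mod_cast hi

lemma nuS_neg {K : ℕ} (a s : Fin K → ℕ) {p : ℕ} (hp : p.Prime) :
    nuS (fun i => -(a i : ℤ)) s p = ((range p).filter fun n : ℕ => (p : ℤ) ∣ n * ∏ i, ((s i : ℤ) - a i * n)).card := by
  unfold nuS
  congr 1
  refine filter_congr fun n hn => ?_
  rw [mem_range] at hn
  have hp' : Prime (p : ℤ) := Nat.prime_iff_prime_int.1 hp
  rw [hp'.dvd_mul, hp'.dvd_finset_prod_iff]
  have h1 : n = 0 ↔ (p : ℤ) ∣ n := by
    constructor
    · rintro rfl; exact dvd_zero _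
    · intro h; exact Nat.eq_zero_of_dvd_of_lt (by exact_mod_cast h) hn
  rw [h1]
  apply or_congr Iff.rfl
  constructor
  · rintro ⟨i, hi⟩
    have : (s i : ℤ) - a i * n = -(a i : ℤ) * n + s i := by ring
    exact ⟨i, mem_univ i, by rw [this]; exact hi⟩
  · rintro ⟨i, -, hi⟩
    have : (s i : ℤ) - a i * n = -(a i : ℤ) * n + s i := by ring
    exact ⟨i, by rw [← this]; exact hi⟩

end Pool.Agent.Q145.LS
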