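import Pool.Agent.Q145.LS.An

/-!
# Project LS: the numerical part of the variance
-/

set_option autoImplicit false

namespace Pool.Agent.Q145.LS

open Finset Filter
open Pool.Agent.Q145.SZ

lemma num_part {z X K a₀ : ℕ} {M C₀ Cc η : ℝ} (hη : 0 < η) (hη1 : η ≤ 1) (hM : 1 ≤ M) (hMη : 256 / η ≤ M)
    (hC₀ : 0 ≤ C₀) (ha₀ : C₀ ≤ a₀) (hCc : 0 < Cc) (hMC : 512 * (1 + Cc) / η ≤ M) (hMC' : 16 * (1 + Cc) ≤ M)
    (pb : S_PWB) (hz1 : Real.exp ((z : ℝ) / 2) ≤ PW z)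
    (hc18 : C18 (PW z) ≤ Cc * Real.log z ^ 18)
    (hX : M ≤ Real.log (Real.log X)) (h1 : 64 * Real.log (Real.log X) ≤ z) (h2 : 64 * z * Real.log (Real.log X) ≤ Real.log X)
    (hK : 16 * K ≤ z) {H : ℝ} (hH0 : 0 ≤ H) (hH : H ≤ η / 16) :
    ((1 + 1 / Real.log X ^ (2 * (a₀ + 11)) * √(C18 (PW z))) ^ K * (1 + H) + (PW z : ℝ) ^ 2 * C₀ ^ K * (2 / (PW z : ℝ) ^ (a₀ + 8)) * (2 * Real.log X) ^ 2 +
      (PW z : ℝ) ^ 2 * (16 * Real.log X ^ 2) ^ K * (2 * Real.log X) ^ 2 / X) -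
      2 * (1 - 1 / Real.log X ^ (a₀ + 11) - (1 + 1 / Real.log X ^ (a₀ + 11)) * (K * ((3 * (1 / Real.log X ^ (a₀ + 11) + PW z / X)) * √(C18 (PW z))))) + 1 ≤ η := by
  obtain ⟨hL0, hLM, hzM, hzL, hzl, hXe, hLe, hl1, hlL⟩ := elem (C := 64) le_rfl hM hX h1 h2
  set L := Real.log X with hL
  set l := Real.log L with hl
  set W : ℝ := (PW z : ℝ) with hW
  have hM0 : 0 < M := by linarith
  have hz0 : (0 : ℝ) < z := by linarith
  have hW1 : 1 ≤ W := one_le_PW z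
  have hWe : W ≤ Real.exp (2 * z) := PW_le pb z
  have hL1 : 1 ≤ L := hM.trans hLM
  have hKz : (16 : ℝ) * K ≤ z := by exact_mod_cast hK
  have hK0 : (0 : ℝ) ≤ K := by positivity
  have hKL : (K : ℝ) ≤ L := by linarith
  have hX0 : (0 : ℝ) < X := by rw [hXe]; exact Real.exp_pos _
  have hXexp : (1 : ℝ) / X = Real.exp (-L) := by
    rw [Real.exp_neg, ← hXe, one_div]
  have hMinv : 1 / M ≤ η / 256 := by
    rw [div_le_iff₀ hM0]; rw [div_le_iff₀ hη] at hMη; linarith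
  -- e^{-L/2} ≤ 2 / M
  have hexp2 : Real.exp (-(L / 2)) ≤ 2 / M := by
    have h := exp_neg_le_inv (x := L / 2) (by linarith)
    refine h.trans ?_
    rw [one_div_div]
    gcongr
  have hlogz0 : 0 ≤ Real.log z := Real.log_nonneg (by linarith)
  have hlogz : Real.log z ≤ L := by
    have : Real.log z ≤ z := (Real.log_le_sub_one_of_pos hz0).trans (by linarith)
    linarith
  have hs18 : √(C18 (PW z)) ≤ (1 + Cc) * L ^ 9 := by
    rw [Real.sqrt_le_left (by positivity)]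
    refine hc18.trans ?_
    have e1 : Real.log z ^ 18 ≤ L ^ 18 := by gcongr
    calc Cc * Real.log z ^ 18 ≤ Cc * L ^ 18 := by gcongr
      _ ≤ (1 + Cc) ^ 2 * L ^ 18 := by
        apply mul_le_mul_of_nonneg_right _ (by positivity)
        nlinarith
      _ = ((1 + Cc) * L ^ 9) ^ 2 := by ring
  have hs0 : 0 ≤ √(C18 (PW z)) := Real.sqrt_nonneg _
  have hCM : (1 + Cc) / M ≤ η / 512 := by
    rw [div_le_iff₀ hM0]; rw [div_le_iff₀ hη] at hMC; linarith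
  have hCM1 : (1 + Cc) / M ≤ 1 / 16 := by rw [div_le_iff₀ hM0]; linarith
  -- first term
  have hx : (K : ℝ) * (1 / L ^ (2 * (a₀ + 11)) * √(C18 (PW z))) ≤ (1 + Cc) / M := by
    have e : L ^ (2 * (a₀ + 11)) = L ^ (2 * a₀ + 11) * L * L * L ^ 9 := by ring
    have e2 : (1 : ℝ) ≤ L ^ (2 * a₀ + 11) := one_le_pow₀ hL1
    calc (K : ℝ) * (1 / L ^ (2 * (a₀ + 11)) * √(C18 (PW z)))
        ≤ L * (1 / L ^ (2 * (a₀ + 11)) * ((1 + Cc) * L ^ 9)) := by gcongr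
      _ = (1 + Cc) / (L ^ (2 * a₀ + 11) * L) := by rw [e]; field_simp
      _ ≤ (1 + Cc) / (1 * L) := by gcongr
      _ ≤ (1 + Cc) / M := by rw [one_mul]; gcongr
  have t1 : (1 + 1 / L ^ (2 * (a₀ + 11)) * √(C18 (PW z))) ^ K ≤ 1 + η / 16 := by
    refine (one_add_pow_le (by positivity) (hx.trans (by linarith))).trans ?_
    linarith
  have t1' : (1 + 1 / L ^ (2 * (a₀ + 11)) * √(C18 (PW z))) ^ K * (1 + H) ≤ 1 + 3 * η / 16 := by
    calc _ ≤ (1 + η / 16) * (1 + η / 16) := by gcongr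
      _ ≤ _ := by nlinarith
  -- second term
  have hC₀K : C₀ ^ K ≤ W ^ a₀ := by
    have e1 : C₀ ≤ Real.exp a₀ := ha₀.trans (by linarith [Real.add_one_le_exp (a₀ : ℝ)])
    calc C₀ ^ K ≤ (Real.exp a₀) ^ K := by gcongr
      _ = Real.exp (a₀ * K) := by rw [← Real.exp_nat_mul]; ring_nf
      _ ≤ Real.exp (a₀ * (z / 2)) := by
        apply Real.exp_le_exp.2
        apply mul_le_mul_of_nonneg_left _ (by positivity)
        linarith
      _ = Real.exp (z / 2) ^ a₀ := by rw [← Real.exp_nat_mul]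
      _ ≤ W ^ a₀ := by gcongr
  have hWM : 32 * M ≤ W := by
    have : (z : ℝ) / 2 + 1 ≤ Real.exp (z / 2) := Real.add_one_le_exp _
    linarith
  have hLW : L ≤ W := by
    calc L = Real.exp l := hLe
      _ ≤ Real.exp (z / 2) := Real.exp_le_exp.2 (by linarith)
      _ ≤ W := hz1
  have t2 : W ^ 2 * C₀ ^ K * (2 / W ^ (a₀ + 8)) * (2 * L) ^ 2 ≤ η / 16 := by
    calc W ^ 2 * C₀ ^ K * (2 / W ^ (a₀ + 8)) * (2 * L) ^ 2 ≤ W ^ 2 * W ^ a₀ * (2 / W ^ (a₀ + 8)) * (2 * W) ^ 2 := by gcongr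
      _ = 8 / W ^ 4 := by
        have : W ^ (a₀ + 8) = W ^ 2 * W ^ a₀ * W ^ 2 * W ^ 4 := by ring
        rw [this]; field_simp; norm_num
      _ ≤ 8 / W := by
        apply div_le_div_of_nonneg_left (by norm_num) (by linarith)
        calc W = W ^ 1 := (pow_one W).symm
          _ ≤ W ^ 4 := pow_le_pow_right₀ hW1 (by norm_num)
      _ ≤ 8 / (32 * M) := by gcongr
      _ = (1 / 4) * (1 / M) := by field_simp; norm_num
      _ ≤ _ := by nlinarith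
  -- third term
  have e1 : 16 * L ^ 2 ≤ Real.exp (3 + 2 * l) := by
    rw [Real.exp_add]
    have e4 : (16 : ℝ) ≤ Real.exp 3 := by
      have h9 := Real.exp_one_gt_d9
      have e : Real.exp 3 = Real.exp 1 * Real.exp 1 * Real.exp 1 := by rw [← Real.exp_add, ← Real.exp_add]; norm_num
      rw [e]; nlinarith [mul_pos (Real.exp_pos 1) (Real.exp_pos 1)]
    have e5 : Real.exp (2 * l) = L ^ 2 := by
      have : Real.exp (2 * l) = Real.exp l ^ 2 := by rw [← Real.exp_nat_mul]; norm_num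
      rw [this, ← hLe]
    rw [e5]; gcongr
  have t3 : W ^ 2 * (16 * L ^ 2) ^ K * (2 * L) ^ 2 / X ≤ η / 16 := by
    have e2 : (16 * L ^ 2) ^ K * (2 * L) ^ 2 ≤ Real.exp (L / 4) := by
      calc (16 * L ^ 2) ^ K * (2 * L) ^ 2 ≤ (16 * L ^ 2) ^ K * (16 * L ^ 2) := by
            gcongr; nlinarith [sq_nonneg L]
        _ = (16 * L ^ 2) ^ (K + 1) := (pow_succ _ _).symm
        _ ≤ (Real.exp (3 + 2 * l)) ^ (K + 1) := by gcongr
        _ = Real.exp ((K + 1) * (3 + 2 * l)) := by rw [← Real.exp_nat_mul]; push_cast; ring_nf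
        _ ≤ Real.exp (L / 4) := by
          apply Real.exp_le_exp.2
          have : ((K : ℝ) + 1) * (3 + 2 * l) ≤ (K + 1) * (5 * l) := by gcongr; linarith
          have h3 : 16 * ((K : ℝ) * l) ≤ z * l := by nlinarith
          have h4 : l ≤ z * l / 64 := by nlinarith
          nlinarith
    have e3 : W ^ 2 ≤ Real.exp (L / 4) := by
      calc W ^ 2 ≤ (Real.exp (2 * z)) ^ 2 := by gcongr
        _ = Real.exp (4 * z) := by rw [← Real.exp_nat_mul]; ring_nf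
        _ ≤ _ := Real.exp_le_exp.2 (by linarith)
    calc W ^ 2 * (16 * L ^ 2) ^ K * (2 * L) ^ 2 / X = W ^ 2 * ((16 * L ^ 2) ^ K * (2 * L) ^ 2) * (1 / X) := by ring
      _ ≤ Real.exp (L / 4) * Real.exp (L / 4) * Real.exp (-L) := by rw [hXexp]; gcongr
      _ = Real.exp (-(L / 2)) := by rw [← Real.exp_add, ← Real.exp_add]; ring_nf
      _ ≤ 2 / M := hexp2
      _ = 2 * (1 / M) := by ring
      _ ≤ _ := by linarith
  -- the first moment
  have g0 : (1 : ℝ) ≤ L ^ (a₀ + 10) := one_le_pow₀ hL1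
  have g1 : 1 / L ^ (a₀ + 11) ≤ 1 / M := by
    have e : L ^ (a₀ + 11) = L ^ (a₀ + 10) * L := by ring
    rw [e]
    apply one_div_le_one_div_of_le hM0
    nlinarith
  have g2 : (K : ℝ) * (1 / L ^ (a₀ + 11) * ((1 + Cc) * L ^ 9)) ≤ (1 + Cc) / M := by
    have e : L ^ (a₀ + 11) = L ^ a₀ * L * L * L ^ 9 := by ring
    have e2 : (1 : ℝ) ≤ L ^ a₀ := one_le_pow₀ hL1
    calc (K : ℝ) * (1 / L ^ (a₀ + 11) * ((1 + Cc) * L ^ 9)) ≤ L * (1 / L ^ (a₀ + 11) * ((1 + Cc) * L ^ 9)) := by gcongr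
      _ = (1 + Cc) / (L ^ a₀ * L) := by rw [e]; field_simp
      _ ≤ (1 + Cc) / (1 * L) := by gcongr
      _ ≤ (1 + Cc) / M := by rw [one_mul]; gcongr
  have g3 : (K : ℝ) * (W / X * ((1 + Cc) * L ^ 9)) ≤ 2 * ((1 + Cc) / M) := by
    have e5 : (K : ℝ) * (W / X * L ^ 9) ≤ Real.exp (-(L / 2)) := by
      calc (K : ℝ) * (W / X * L ^ 9) ≤ W * (W / X * W ^ 9) := by
            have : (K : ℝ) ≤ W := hKL.trans hLW
            gcongr
        _ = W ^ 11 * (1 / X) := by ring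
        _ ≤ (Real.exp (2 * z)) ^ 11 * Real.exp (-L) := by rw [hXexp]; gcongr
        _ = Real.exp (22 * z - L) := by rw [← Real.exp_nat_mul, ← Real.exp_add]; push_cast; ring_nf
        _ ≤ _ := Real.exp_le_exp.2 (by linarith)
    calc (K : ℝ) * (W / X * ((1 + Cc) * L ^ 9)) = (1 + Cc) * (K * (W / X * L ^ 9)) := by ring
      _ ≤ (1 + Cc) * (2 / M) := by
        apply mul_le_mul_of_nonneg_left (e5.trans hexp2) (by linarith)
      _ = _ := by ring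
  have g4 : (K : ℝ) * ((3 * (1 / L ^ (a₀ + 11) + W / X)) * √(C18 (PW z))) ≤ 9 * ((1 + Cc) / M) := by
    calc (K : ℝ) * ((3 * (1 / L ^ (a₀ + 11) + W / X)) * √(C18 (PW z))) ≤ K * ((3 * (1 / L ^ (a₀ + 11) + W / X)) * ((1 + Cc) * L ^ 9)) := by gcongr
      _ = 3 * (K * (1 / L ^ (a₀ + 11) * ((1 + Cc) * L ^ 9)) + K * (W / X * ((1 + Cc) * L ^ 9))) := by ring
      _ ≤ _ := by linarith
  have g5 : 0 ≤ (K : ℝ) * ((3 * (1 / L ^ (a₀ + 11) + W / X)) * √(C18 (PW z))) := by positivity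
  have g6 : 0 ≤ 1 / L ^ (a₀ + 11) := by positivity
  have g7 : 1 / M ≤ 1 := by rw [div_le_one hM0]; exact hM
  set x := (K : ℝ) * ((3 * (1 / L ^ (a₀ + 11) + W / X)) * √(C18 (PW z))) with hxdef
  set e₀ := 1 / L ^ (a₀ + 11) with he₀
  have g8 : (1 + e₀) * x ≤ 2 * x := by
    apply mul_le_mul_of_nonneg_right _ g5
    linarith
  nlinarith

end Pool.Agent.Q145.LS
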