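import Pool.Agent.Q145.LS.Num

/-!
# Project LS: the variance
-/

set_option autoImplicit false

namespace Pool.Agent.Q145.LS

open Finset Filter
open Pool.Agent.Q145.SZ

/-- conclusion of `S_HSS` -/
def S_HSS' : Prop := ∃ (C : ℝ) (z₀ : ℕ), 1 ≤ C ∧ ∀ (z X K : ℕ) (ε : ℝ), z₀ ≤ z → 8 * K ≤ z → Real.exp (C * z) * Real.log X ^ (16 * K + 24) ≤ X → PW z ≤ X → 0 ≤ ε → ε ≤ 1 →
  (∑ c ∈ uni (PW z), (th X c - (X : ℝ) / Nat.totient (PW z)) ^ 2 ≤ ε ^ 2 * (X : ℝ) ^ 2 / Nat.totient (PW z)) →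
  ∀ Q : ZMod (PW z) → ZMod (PW z) → ℝ, (∀ c d, 0 ≤ Q c d) → (∀ (t : (ZMod (PW z))ˣ) (c d : ZMod (PW z)), Q (t * c) (t * d) = Q c d) →
  ∑ n ∈ Ioc X (2 * X), ∑ m ∈ (Ioc X (2 * X)).filter (fun m => m ≠ n), wt n * wt m * SP z X (dst n m) ^ K * Q n m ≤
    ((X : ℝ) / Nat.totient (PW z)) ^ 2 * (1 + (C / Real.log z + 3 * ε)) * ∑ c ∈ uni (PW z), ∑ d ∈ uni (PW z), Q c d

lemma split_sqS {z X K : ℕ} (a : Fin K → ℤ) :
    ∑ b ∈ AdW (um (PW z) a), (∑ s ∈ SbS X a b, (wcS X a s / MbS X (um (PW z) a) b - 1) ^ 2) / ((SbS X a b).card : ℝ) ≤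
      ∑ b ∈ AdW (um (PW z) a), (∑ s ∈ SbS X a b, (wcS X a s / MbS X (um (PW z) a) b) ^ 2) / ((SbS X a b).card : ℝ)
        - 2 * ∑ b ∈ AdW (um (PW z) a), (∑ s ∈ SbS X a b, wcS X a s / MbS X (um (PW z) a) b) / ((SbS X a b).card : ℝ) + ((AdW (um (PW z) a)).card : ℝ) := by
  rw [mul_sum, ← sum_sub_distrib, card_eq_sum_ones, Nat.cast_sum, ← sum_add_distrib]
  apply sum_le_sum
  intro b _
  have h : ∑ s ∈ SbS X a b, (wcS X a s / MbS X (um (PW z) a) b - 1) ^ 2 =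
      ∑ s ∈ SbS X a b, (wcS X a s / MbS X (um (PW z) a) b) ^ 2 - 2 * ∑ s ∈ SbS X a b, wcS X a s / MbS X (um (PW z) a) b + ((SbS X a b).card : ℝ) := by
    rw [mul_sum, ← sum_sub_distrib, card_eq_sum_ones, Nat.cast_sum, ← sum_add_distrib]
    refine sum_congr rfl fun s _ => ?_
    push_cast; ring
  rw [h, add_div, sub_div, mul_div_assoc]
  have : ((SbS X a b).card : ℝ) / (SbS X a b).card ≤ 1 := div_self_le_one _
  push_cast
  linarith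

lemma dst_pos {n m : ℕ} (h : n ≠ m) : 1 ≤ dst n m := by unfold dst; omega

lemma dst_lt {X n m : ℕ} (hn : n ∈ Ioc X (2 * X)) (hm : m ∈ Ioc X (2 * X)) : dst n m < X := by
  rw [mem_Ioc] at hn hm; unfold dst; omega

lemma dst_zero {n m : ℕ} (h : dst n m = 0) : n = m := by unfold dst at h; omega

/-- sums over `Us` for the reduced problem -/
lemma sum_Us {W : ℕ} [NeZero W] (red : S_RED) {X : ℕ} {a : ℤ} (ha : a ≠ 0) {n m : ℕ} (hn : n ∈ Ioc X (2 * X)) (hm : m ∈ Ioc X (2 * X)) (F : ZMod W → ℝ) :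
    ∑ β ∈ Us ((a : ZMod W) * (n : ZMod W)) ((a : ZMod W) * (m : ZMod W)), F (β - (lo X a : ZMod W)) =
      ∑ β ∈ Us ((fl X a n : ℕ) : ZMod W) ((fl X a m : ℕ) : ZMod W), F β := by
  have h := ((red X a ha).2.2 W).2.2.2 n hn m hm
  refine sum_bij (fun β _ => β - (lo X a : ZMod W)) ?_ ?_ ?_ ?_
  · intro β hβ
    exact (h β).2.2 hβ
  · intro β _ γ _ hh
    exact sub_left_injective hh
  · intro β hβ
    refine ⟨β + (lo X a : ZMod W), ?_, by ring⟩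
    have := (h (β + (lo X a : ZMod W))).2
    rw [add_sub_cancel_right] at this
    exact this.1 hβ
  · intro β _
    rfl

lemma card_Us {W : ℕ} [NeZero W] (red : S_RED) {X : ℕ} {a : ℤ} (ha : a ≠ 0) {n m : ℕ} (hn : n ∈ Ioc X (2 * X)) (hm : m ∈ Ioc X (2 * X)) :
    ((Us ((a : ZMod W) * (n : ZMod W)) ((a : ZMod W) * (m : ZMod W))).card : ℝ) =
      (Us ((fl X a n : ℕ) : ZMod W) ((fl X a m : ℕ) : ZMod W)).card := by
  have := sum_Us red ha hn hm (fun _ : ZMod W => (1 : ℝ))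
  simpa using this

/-- the union of the exceptional sets -/
lemma exc_card (red : S_RED) {z X K A : ℕ} (a : Fin K → ℤ) (ha : ∀ i, a i ≠ 0 ∧ (a i).natAbs ≤ z) (Eg : ℕ → Finset (ℕ × ℕ))
    (hEg : ∀ g : ℕ, 1 ≤ g → g ≤ z → ((Eg g).card : ℝ) ≤ ((g * X : ℕ) : ℝ) ^ 2 / (PW z : ℝ) ^ A) :
    ((((Ioc X (2 * X)) ×ˢ (Ioc X (2 * X))).filter fun q : ℕ × ℕ => ∃ i, (fl X (a i) q.1, fl X (a i) q.2) ∈ Eg (a i).natAbs).card : ℝ) ≤
      K * (z : ℝ) ^ 2 * ((X : ℝ) ^ 2 / (PW z : ℝ) ^ A) := by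
  classical
  have hW0 : (0 : ℝ) < PW z := by exact_mod_cast PW_pos z
  have h1 : (((Ioc X (2 * X)) ×ˢ (Ioc X (2 * X))).filter fun q : ℕ × ℕ => ∃ i, (fl X (a i) q.1, fl X (a i) q.2) ∈ Eg (a i).natAbs) ⊆
      (univ : Finset (Fin K)).biUnion fun i => ((Ioc X (2 * X)) ×ˢ (Ioc X (2 * X))).filter fun q : ℕ × ℕ => (fl X (a i) q.1, fl X (a i) q.2) ∈ Eg (a i).natAbs := by
    intro q hq
    rw [mem_filter] at hq
    obtain ⟨i, hi⟩ := hq.2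
    rw [mem_biUnion]
    exact ⟨i, mem_univ _, mem_filter.2 ⟨hq.1, hi⟩⟩
  have h2 := (card_le_card h1).trans card_biUnion_le
  have h3 : ∀ i : Fin K, ((((Ioc X (2 * X)) ×ˢ (Ioc X (2 * X))).filter fun q : ℕ × ℕ => (fl X (a i) q.1, fl X (a i) q.2) ∈ Eg (a i).natAbs).card : ℝ) ≤
      (z : ℝ) ^ 2 * ((X : ℝ) ^ 2 / (PW z : ℝ) ^ A) := by
    intro i
    obtain ⟨ha0, haz⟩ := ha i
    have hg1 : 1 ≤ (a i).natAbs := Int.natAbs_pos.2 ha0
    have hinj : ∀ n ∈ Ioc X (2 * X), ∀ m ∈ Ioc X (2 * X), fl X (a i) n = fl X (a i) m → n = m := by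
      intro n hn m hm h
      have h4 := (red X (a i) ha0).2.1 n hn m hm
      rw [h] at h4
      have h5 : dst (fl X (a i) m) (fl X (a i) m) = 0 := by unfold dst; omega
      rw [h5] at h4
      have h6 : dst n m = 0 := by
        rcases Nat.mul_eq_zero.1 h4.symm with h | h
        · omega
        · exact h
      exact dst_zero h6
    have h4 : (((Ioc X (2 * X)) ×ˢ (Ioc X (2 * X))).filter fun q : ℕ × ℕ => (fl X (a i) q.1, fl X (a i) q.2) ∈ Eg (a i).natAbs).card ≤ (Eg (a i).natAbs).card := by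
      apply card_le_card_of_injOn (fun q : ℕ × ℕ => (fl X (a i) q.1, fl X (a i) q.2))
      · intro q hq
        have := (mem_filter.1 (mem_coe.1 hq)).2
        exact this
      · intro q hq r hr h
        have hq' := mem_product.1 (mem_filter.1 (mem_coe.1 hq)).1
        have hr' := mem_product.1 (mem_filter.1 (mem_coe.1 hr)).1
        simp only [Prod.mk.injEq] at h
        exact Prod.ext (hinj _ hq'.1 _ hr'.1 h.1) (hinj _ hq'.2 _ hr'.2 h.2)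
    calc ((((Ioc X (2 * X)) ×ˢ (Ioc X (2 * X))).filter fun q : ℕ × ℕ => (fl X (a i) q.1, fl X (a i) q.2) ∈ Eg (a i).natAbs).card : ℝ)
        ≤ ((Eg (a i).natAbs).card : ℝ) := by exact_mod_cast h4
      _ ≤ (((a i).natAbs * X : ℕ) : ℝ) ^ 2 / (PW z : ℝ) ^ A := hEg _ hg1 haz
      _ = ((a i).natAbs : ℝ) ^ 2 * ((X : ℝ) ^ 2 / (PW z : ℝ) ^ A) := by push_cast; ring
      _ ≤ (z : ℝ) ^ 2 * ((X : ℝ) ^ 2 / (PW z : ℝ) ^ A) := by
        have : ((a i).natAbs : ℝ) ≤ z := by exact_mod_cast haz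
        gcongr
  calc _ ≤ ((∑ i : Fin K, (((Ioc X (2 * X)) ×ˢ (Ioc X (2 * X))).filter fun q : ℕ × ℕ => (fl X (a i) q.1, fl X (a i) q.2) ∈ Eg (a i).natAbs).card : ℕ) : ℝ) := by
        exact_mod_cast h2
    _ = ∑ i : Fin K, ((((Ioc X (2 * X)) ×ˢ (Ioc X (2 * X))).filter fun q : ℕ × ℕ => (fl X (a i) q.1, fl X (a i) q.2) ∈ Eg (a i).natAbs).card : ℝ) := by push_cast; rfl
    _ ≤ ∑ _i : Fin K, (z : ℝ) ^ 2 * ((X : ℝ) ^ 2 / (PW z : ℝ) ^ A) := sum_le_sum fun i _ => h3 i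
    _ = _ := by rw [sum_const, card_univ, Fintype.card_fin, nsmul_eq_mul]; ring

end Pool.Agent.Q145.LS
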